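import Pool.Agent.V5helper56.PH.Asym
import Pool.Agent.V5helper56.SY.Gordan

/-!
# Blocks of digits and product hulls

A letter is a block of `L` digits in base `b`. If the product hull of a set `S` of letters carries
a weight on its nontrivial progressions such that the terms have the same distribution of each digit,
then there are progressions and letters in `S` with the same distributions of all the digits.
-/

set_option autoImplicit false

namespace Pool.Agent.V5helper56.PH

open Finset
open Pool.Agent.V5helper56.SY (gordan)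

/-- blocks of digits -/
abbrev X (L b : ℕ) : Type := Fin L → Fin b

variable {L b : ℕ}

/-- the number -/
def val (x : X L b) : ℕ := ∑ i : Fin L, (x i : ℕ) * b ^ (i : ℕ)

/-- the progressions `x + z = 2 y` -/
abbrev Q (L b : ℕ) : Type := {p : X L b × X L b × X L b // val p.1 + val p.2.2 = 2 * val p.2.1}

/-- the terms -/
def F (i : Fin 3) (q : Q L b) : X L b :=
  if i = 0 then q.1.1 else if i = 1 then q.1.2.1 else q.1.2.2

@[simp] theorem F0 (q : Q L b) : F 0 q = q.1.1 := rfl
@[simp] theorem F1 (q : Q L b) : F 1 q = q.1.2.1 := rfl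
@[simp] theorem F2 (q : Q L b) : F 2 q = q.1.2.2 := rfl

/-- nontrivial -/
def nt (q : Q L b) : Prop := q.1.1 ≠ q.1.2.2

/-- the constant progressions -/
def τ (v : X L b) : Q L b := ⟨(v, v, v), by simp only; ring⟩

theorem F_τ (i : Fin 3) (v : X L b) : F i (τ v) = v := by
  fin_cases i <;> rfl

/-- the reversed progression -/
def rev (q : Q L b) : Q L b := ⟨(q.1.2.2, q.1.2.1, q.1.1), by
  have := q.2
  simp only
  omega⟩

theorem rev_rev (q : Q L b) : rev (rev q) = q := rfl

/-- the digits -/
def π (j : Fin L) (x : X L b) : Fin b := x j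

/-- the progressions in the product hull of `S` -/
noncomputable def prog (S : Finset (X L b)) : Finset (Q L b) := by
  classical
  exact univ.filter fun q => nt q ∧ ∀ i j, ∃ x ∈ S, x j = F i q j

theorem mem_prog {S : Finset (X L b)} {q : Q L b} :
    q ∈ prog S ↔ nt q ∧ ∀ i j, ∃ x ∈ S, x j = F i q j := by
  unfold prog
  simp

/-- a balanced weight on the product hull -/
def HBal (S : Finset (X L b)) : Prop :=
  ∃ w : Q L b → ℕ, (∃ q, w q ≠ 0) ∧ (∀ q, w q ≠ 0 → q ∈ prog S) ∧
    ∀ (i : Fin 3) (j : Fin L) (s : Fin b), (∑ q : Q L b, if F i q j = s then w q else 0) =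
      ∑ q : Q L b, if F 1 q j = s then w q else 0

/-- from balanced weights on the product hull to comparable families -/
theorem comp_of_hbal [NeZero L] {S : Finset (X L b)} (h : HBal S) :
    Comp (π (L := L) (b := b)) F nt S := by
  classical
  obtain ⟨w, ⟨q₀, hq₀⟩, hsup, hbal⟩ := h
  have hx : ∀ q, w q ≠ 0 → ∀ j : Fin L, ∃ x ∈ S, x j = F 1 q j := fun q hq j =>
    (mem_prog.1 (hsup q hq)).2 1 j
  choose x hxS hxj using hx
  obtain ⟨x₀, hx₀⟩ : ∃ x₀, x₀ ∈ S := ⟨_, hxS q₀ hq₀ 0⟩
  let x' : Q L b → Fin L → X L b := fun q j => if h : w q ≠ 0 then x q h j else x₀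
  have hx'S : ∀ q j, x' q j ∈ S := by
    intro q j
    simp only [x']
    split_ifs with h
    · exact hxS q _ j
    · exact hx₀
  have hx'j : ∀ q, w q ≠ 0 → ∀ j, x' q j j = F 1 q j := by
    intro q hq j
    simp only [x', dif_pos hq]
    exact hxj q hq j
  let I : Type := (Σ q : Q L b, Fin (w q)) × Fin L
  let e : I → Q L b := fun s => if s.2 = 0 then s.1.1 else τ fun j => x' s.1.1 (j + s.2) j
  let r : I → X L b := fun s => x' s.1.1 s.2
  obtain ⟨E⟩ : Nonempty (Fin (Fintype.card I) ≃ I) := ⟨(Fintype.equivFin I).symm⟩
  have hw0 : ∀ s : (Σ q : Q L b, Fin (w q)), w s.1 ≠ 0 := fun s h0 => by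
    have := s.2.2
    omega
  refine ⟨Fintype.card I, fun s => e (E s), fun s => r (E s), ?_, fun s => hx'S _ _, ?_⟩
  · refine ⟨E.symm (⟨q₀, ⟨0, Nat.pos_of_ne_zero hq₀⟩⟩, 0), ?_⟩
    show nt (e (E (E.symm _)))
    rw [Equiv.apply_symm_apply]
    simp only [e, if_true]
    exact (mem_prog.1 (hsup q₀ hq₀)).1
  · intro G _ φ hφ i
    obtain ⟨g, hg⟩ := hφ
    rw [Equiv.sum_comp E (fun s => φ (F i (e s))), Equiv.sum_comp E (fun s => φ (r s))]
    rw [Fintype.sum_prod_type, Fintype.sum_prod_type]
    -- the rows
    have hrow : ∀ s : (Σ q : Q L b, Fin (w q)), ∑ t : Fin L, φ (F i (e (s, t))) =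
        φ (F i s.1) - φ (F 1 s.1) + ∑ t : Fin L, φ (r (s, t)) := by
      intro s
      have h1 : ∀ t : Fin L, φ (F i (e (s, t))) =
          (if t = 0 then φ (F i s.1) - φ (F 1 s.1) else 0) +
            φ (fun j => x' s.1 (j + t) j) := by
        intro t
        simp only [e]
        split_ifs with h0
        · subst h0
          have h2 : (fun j => x' s.1 (j + 0) j) = F 1 s.1 := by
            funext j
            rw [add_zero]
            exact hx'j _ (hw0 s) j
          rw [h2, sub_add_cancel]
        · rw [F_τ, zero_add]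
      rw [sum_congr rfl fun t _ => h1 t, sum_add_distrib, sum_ite_eq' univ (0 : Fin L),
        if_pos (mem_univ _)]
      congr 1
      simp only [hg, r, π]
      rw [sum_comm]
      conv_rhs => rw [sum_comm]
      apply sum_congr rfl
      intro j _
      exact Equiv.sum_comp (Equiv.addLeft j) (fun t => g j (x' s.1 t j))
    rw [sum_congr rfl fun s _ => hrow s, sum_add_distrib, sum_sub_distrib]
    have h2 : ∀ i : Fin 3, ∑ s : (Σ q : Q L b, Fin (w q)), φ (F i s.1) =
        ∑ j : Fin L, ∑ y : Fin b, (∑ q : Q L b, if F i q j = y then w q else 0) • g j y := by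
      intro i
      simp only [hg]
      rw [sum_comm]
      apply sum_congr rfl
      intro j _
      exact Pool.Agent.N389.AS.sum_weight (F := fun i q => π j (F i q)) w i (g j)
    rw [h2 i, h2 1]
    simp only [hbal i]
    rw [sub_self, zero_add]

/-- the linear forms -/
def form (q : Q L b) : ((Fin L × Fin b → ℚ) →ₗ[ℚ] ℚ) where
  toFun f := ∑ j, (f (j, q.1.1 j) + f (j, q.1.2.2 j) - 2 * f (j, q.1.2.1 j))
  map_add' f g := by
    rw [← sum_add_distrib]
    apply sum_congr rfl
    intro j _
    simp only [Pi.add_apply]
    ring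
  map_smul' c f := by
    rw [RingHom.id_apply, smul_eq_mul, mul_sum]
    apply sum_congr rfl
    intro j _
    simp only [Pi.smul_apply, smul_eq_mul]
    ring

theorem form_apply (q : Q L b) (f : Fin L × Fin b → ℚ) : form q f =
    ∑ j, (f (j, q.1.1 j) + f (j, q.1.2.2 j) - 2 * f (j, q.1.2.1 j)) := rfl

/-- **Gordan's alternative.** -/
theorem hbal_or (S : Finset (X L b)) : HBal S ∨
    ∃ f : Fin L × Fin b → ℚ, ∀ q ∈ prog S, 0 < form q f := by
  classical
  rcases gordan (prog S) (fun q => form q) with ⟨f, hf⟩ | ⟨c, ⟨q₀, hq₀, hc₀⟩, hc⟩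
  · exact Or.inr ⟨f, hf⟩
  · left
    -- extend by zero and symmetrise
    obtain ⟨c', hc'⟩ : ∃ c' : Q L b → ℕ, ∀ q, c' q = if q ∈ prog S then c q else 0 :=
      ⟨_, fun _ => rfl⟩
    have hsum : ∀ f, ∑ q : Q L b, (c' q : ℚ) * form q f = 0 := by
      intro f
      rw [← hc f]
      simp only [hc']
      push_cast
      rw [← sum_filter_add_sum_filter_not univ (fun q => q ∈ prog S)]
      rw [sum_eq_zero (s := univ.filter fun q => q ∉ prog S), add_zero]
      · apply sum_congr
        · ext q
          simp
        · intro q hq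
          rw [if_pos hq]
      · intro q hq
        rw [if_neg (mem_filter.1 hq).2, zero_mul]
    have hsup : ∀ q, c' q ≠ 0 → q ∈ prog S := by
      intro q hq
      rw [hc'] at hq
      by_contra h
      rw [if_neg h] at hq
      exact hq rfl
    have hrev : ∀ g : Q L b → ℕ, ∑ q : Q L b, g (rev q) = ∑ q : Q L b, g q := by
      intro g
      exact Equiv.sum_comp ⟨rev, rev, rev_rev, rev_rev⟩ g
    -- the marginals of `c'`
    have hmarg : ∀ (j : Fin L) (s : Fin b),
        (∑ q : Q L b, if F 0 q j = s then c' q else 0) +
          (∑ q : Q L b, if F 2 q j = s then c' q else 0) =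
          2 * ∑ q : Q L b, if F 1 q j = s then c' q else 0 := by
      intro j s
      have h1 := hsum (fun p => if p = (j, s) then 1 else 0)
      have h2 : ∀ q : Q L b, (c' q : ℚ) * form q (fun p => if p = (j, s) then 1 else 0) =
          ((if F 0 q j = s then c' q else 0 : ℕ) : ℚ) +
          ((if F 2 q j = s then c' q else 0 : ℕ) : ℚ) -
          2 * ((if F 1 q j = s then c' q else 0 : ℕ) : ℚ) := by
        intro q
        rw [form_apply]
        simp only [F0, F1, F2]
        have h3 : ∀ x : X L b, ∀ i : Fin L, (if ((i, x i) : Fin L × Fin b) = (j, s) then 1 else 0 : ℚ) =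
            if i = j then (if x j = s then 1 else 0) else 0 := by
          intro x i
          by_cases hij : i = j
          · subst hij
            simp
          · rw [if_neg hij, if_neg]
            intro h
            exact hij (congrArg Prod.fst h)
        have h4 : ∑ i : Fin L, ((if ((i, q.1.1 i) : Fin L × Fin b) = (j, s) then 1 else 0 : ℚ) +
            (if ((i, q.1.2.2 i) : Fin L × Fin b) = (j, s) then 1 else 0) -
            2 * (if ((i, q.1.2.1 i) : Fin L × Fin b) = (j, s) then 1 else 0)) =
            (if q.1.1 j = s then 1 else 0) + (if q.1.2.2 j = s then 1 else 0) -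
              2 * (if q.1.2.1 j = s then 1 else 0) := by
          simp only [h3]
          rw [sum_eq_single j]
          · simp
          · intro i _ hij
            simp [hij]
          · intro h
            exact absurd (mem_univ j) h
        rw [h4]
        push_cast
        split_ifs <;> ring
      rw [sum_congr rfl fun q _ => h2 q, sum_sub_distrib, sum_add_distrib, ← mul_sum] at h1
      have h4 : ((∑ q : Q L b, if F 0 q j = s then c' q else 0 : ℕ) : ℚ) +
          ((∑ q : Q L b, if F 2 q j = s then c' q else 0 : ℕ) : ℚ) =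
          2 * ((∑ q : Q L b, if F 1 q j = s then c' q else 0 : ℕ) : ℚ) := by
        push_cast
        push_cast at h1
        linarith
      exact_mod_cast h4
    -- the marginals of the symmetrised weight
    have hm2 : ∀ (j : Fin L) (s : Fin b) (i : Fin 3),
        (∑ q : Q L b, if F i q j = s then c' q + c' (rev q) else 0) =
          2 * ∑ q : Q L b, if F 1 q j = s then c' q else 0 := by
      intro j s i
      have h5 : ∀ i : Fin 3, (∑ q : Q L b, if F i q j = s then c' q + c' (rev q) else 0) =
          (∑ q : Q L b, if F i q j = s then c' q else 0) +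
          ∑ q : Q L b, if F i (rev q) j = s then c' q else 0 := by
        intro i
        have h6 : (∑ q : Q L b, if F i q j = s then c' (rev q) else 0) =
            ∑ q : Q L b, if F i (rev q) j = s then c' q else 0 := by
          rw [← hrev]
          rfl
        rw [← h6, ← sum_add_distrib]
        apply sum_congr rfl
        intro q _
        split_ifs <;> ring
      rw [h5]
      fin_cases i
      · exact hmarg j s
      · have h7 : ∀ q : Q L b, F 1 (rev q) = F 1 q := fun q => rfl
        simp only [Fin.mk_one, h7]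
        ring
      · rw [add_comm]
        exact hmarg j s
    refine ⟨fun q => c' q + c' (rev q), ⟨q₀, ?_⟩, ?_, ?_⟩
    · have : c' q₀ = c q₀ := by rw [hc', if_pos hq₀]
      simp only
      omega
    · intro q hq
      simp only at hq
      by_cases h : c' q = 0
      · have h8 : c' (rev q) ≠ 0 := by omega
        obtain ⟨h9, h10⟩ := mem_prog.1 (hsup _ h8)
        refine mem_prog.2 ⟨fun h => h9 h.symm, fun i => ?_⟩
        fin_cases i
        · exact h10 2
        · exact h10 1
        · exact h10 0
      · exact hsup q h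
    · intro i j s
      rw [hm2, hm2]

end Pool.Agent.V5helper56.PH
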