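import Pool.Agent.V5helper56.PH.Run
import Pool.Agent.V5helper56.SY.Par

/-!
# The size of reset sets and the product bound
-/

set_option autoImplicit false

namespace Pool.Agent.V5helper56.PH

open Finset
open Pool.Agent.V5helper56.SY (St mem_St tr mem_tr pairs consecutive reset_even)

/-- reset sets in `ZMod b` -/
def ResetZ {b : ℕ} (D : Finset (ZMod b)) (φ : ZMod b → ℚ) (γ : ℚ) : Prop :=
  ∀ X ∈ D, ∀ Y ∈ D, ∀ Z ∈ D, ∀ e : ℤ, (e = -1 ∨ e = 0 ∨ e = 1) → X + Z = 2 * Y - e →
    ¬ (e = 0 ∧ X = Y ∧ Z = Y) → γ * e < φ X + φ Z - 2 * φ Y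

theorem natCast_inj {b x y : ℕ} (hx : x < b) (hy : y < b) (h : (x : ZMod b) = y) : x = y := by
  have h1 := congrArg ZMod.val h
  rwa [ZMod.val_natCast_of_lt hx, ZMod.val_natCast_of_lt hy] at h1

theorem Reset.toZ {b : ℕ} {D : Finset ℕ} (hD : D ⊆ range b) {φ : ℕ → ℚ} {γ : ℚ}
    (h : Reset b D φ γ) :
    ResetZ (D.image (Nat.cast : ℕ → ZMod b)) (fun x => φ x.val) γ := by
  intro X hX Y hY Z hZ e he heq hnt
  rw [mem_image] at hX hY hZ
  obtain ⟨x, hx, rfl⟩ := hX
  obtain ⟨y, hy, rfl⟩ := hY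
  obtain ⟨z, hz, rfl⟩ := hZ
  have hxb := mem_range.1 (hD hx)
  have hyb := mem_range.1 (hD hy)
  have hzb := mem_range.1 (hD hz)
  simp only [ZMod.val_natCast_of_lt hxb, ZMod.val_natCast_of_lt hyb, ZMod.val_natCast_of_lt hzb]
  have h1 : ((x + z - 2 * y + e : ℤ) : ZMod b) = 0 := by
    push_cast
    rw [heq]
    ring
  rw [ZMod.intCast_zmod_eq_zero_iff_dvd] at h1
  obtain ⟨e', he'⟩ := h1
  refine h x hx y hy z hz e (mem_St.2 he) e' he' ?_
  rintro ⟨h2, rfl, rfl⟩
  exact hnt ⟨h2, rfl, rfl⟩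

theorem card_image_cast {b : ℕ} {D : Finset ℕ} (hD : D ⊆ range b) :
    (D.image (Nat.cast : ℕ → ZMod b)).card = D.card := by
  apply card_image_of_injOn
  intro x hx y hy h
  exact natCast_inj (mem_range.1 (hD hx)) (mem_range.1 (hD hy)) h

/-- the elementary bound -/
theorem ResetZ.three {b : ℕ} (hb : 0 < b) {D : Finset (ZMod b)} {φ : ZMod b → ℚ} {γ : ℚ}
    (h : ResetZ D φ γ) : 3 * D.card ≤ b + 1 := by
  haveI : NeZero b := ⟨hb.ne'⟩
  rcases D.eq_empty_or_nonempty with rfl | hne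
  · simp
  have hcons : ∀ d ∈ D, d + 1 ∉ D := by
    intro d hd hd'
    have h1 := h d hd (d + 1) hd' (d + 1) hd' 1 (by simp) (by push_cast; ring) (by simp)
    have h2 := h d hd d hd (d + 1) hd' (-1) (by simp) (by push_cast; ring) (by simp)
    push_cast at h1 h2
    linarith
  obtain ⟨Y, hY, hmax⟩ := exists_max_image D φ hne
  obtain ⟨e, he, hγ⟩ : ∃ e : ℤ, (e = -1 ∨ e = 1) ∧ 0 ≤ γ * e := by
    rcases le_total 0 γ with h1 | h1
    · exact ⟨1, by simp, by push_cast; linarith⟩
    · exact ⟨-1, by simp, by push_cast; linarith⟩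
  have he3 : e = -1 ∨ e = 0 ∨ e = 1 := by tauto
  have he0 : e ≠ 0 := by
    rcases he with h | h <;> rw [h] <;> norm_num
  obtain ⟨A, hA⟩ : ∃ A, A = D.image (fun x => 2 * Y - x) := ⟨_, rfl⟩
  obtain ⟨B, hB⟩ : ∃ B, B = D.image (fun x => 2 * Y - e - x) := ⟨_, rfl⟩
  have hAc : A.card = D.card := by
    rw [hA]
    exact card_image_of_injective _ fun x y hxy => by simpa using hxy
  have hBc : B.card = D.card := by
    rw [hB]
    exact card_image_of_injective _ fun x y hxy => by simpa using hxy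
  have h1 : D ∩ A ⊆ {Y} := by
    intro x hx
    obtain ⟨hx1, hx2⟩ := mem_inter.1 hx
    rw [hA, mem_image] at hx2
    obtain ⟨z, hz, hzx⟩ := hx2
    by_contra hne'
    rw [mem_singleton] at hne'
    have h2 := h x hx1 Y hY z hz 0 (by simp) (by rw [← hzx]; push_cast; ring)
      (fun h3 => hne' h3.2.1)
    have h3 := hmax x hx1
    have h4 := hmax z hz
    push_cast at h2
    linarith
  have h2 : Disjoint D B := by
    rw [disjoint_left]
    intro x hx1 hx2
    rw [hB, mem_image] at hx2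
    obtain ⟨z, hz, hzx⟩ := hx2
    have h2 := h x hx1 Y hY z hz e he3 (by rw [← hzx]; ring) (fun h3 => he0 h3.1)
    have h3 := hmax x hx1
    have h4 := hmax z hz
    linarith
  have h3 : Disjoint A B := by
    rw [disjoint_left]
    intro x hx1 hx2
    rw [hA, mem_image] at hx1
    rw [hB, mem_image] at hx2
    obtain ⟨u, hu, hux⟩ := hx1
    obtain ⟨v, hv, hvx⟩ := hx2
    have h5 : u = v + e := by
      rw [← hux] at hvx
      linear_combination hvx
    rcases he with rfl | rfl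
    · apply hcons u hu
      have h6 : u + 1 = v := by
        rw [h5]
        push_cast
        ring
      rwa [h6]
    · apply hcons v hv
      have h6 : v + 1 = u := by
        rw [h5]
        push_cast
        ring
      rwa [h6]
  have h4 : ((D ∪ A) ∪ B).card ≤ b := by
    have := card_le_univ ((D ∪ A) ∪ B)
    rwa [ZMod.card] at this
  have h5 : Disjoint (D ∪ A) B := disjoint_union_left.2 ⟨h2, h3⟩
  rw [card_union_of_disjoint h5, hBc] at h4
  have h6 := card_union_add_card_inter D A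
  have h7 := card_le_card h1
  rw [card_singleton] at h7
  omega

/-- the bound for the size of a reset set -/
def R (b : ℕ) : ℕ := if b % 2 = 0 then (b + 2) / 4 else (b + 1) / 3

theorem Reset.card_le {b : ℕ} (hb : 0 < b) {D : Finset ℕ} (hD : D ⊆ range b) {φ : ℕ → ℚ} {γ : ℚ}
    (h : Reset b D φ γ) : D.card ≤ R b := by
  have h1 := h.toZ hD
  unfold R
  split_ifs with h2
  · have h3 := reset_even (Nat.even_iff.2 h2) hb _ _ _ h1
    rw [card_image_cast hD] at h3
    omega
  · have h3 := h1.three hb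
    rw [card_image_cast hD] at h3
    omega

/-- the square of the growth rate in the upper bound -/
def K (b : ℕ) : ℕ := max (((b + 1) / 2) ^ 2) (b * R b)

theorem half_sq_le_K (b : ℕ) : ((b + 1) / 2) ^ 2 ≤ K b := le_max_left _ _

theorem mul_R_le_K (b : ℕ) : b * R b ≤ K b := le_max_right _ _

theorem one_le_K {b : ℕ} (hb : 2 ≤ b) : 1 ≤ K b := by
  have h1 : 1 ≤ (b + 1) / 2 := by omega
  have h2 := Nat.pow_le_pow_left h1 2
  have := half_sq_le_K b
  omega

theorem R_le {b : ℕ} (hb : 2 ≤ b) : R b ≤ (b + 1) / 2 := by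
  unfold R
  split_ifs <;> omega

theorem K_le {b : ℕ} (hb : 2 ≤ b) : K b ≤ b ^ 2 := by
  unfold K
  have h1 : (b + 1) / 2 ≤ b := by omega
  have h2 := Nat.pow_le_pow_left h1 2
  have h3 := Nat.mul_le_mul_left b ((R_le hb).trans h1)
  rw [← sq] at h3
  exact max_le h2 h3

/-- **The product bound.** -/
theorem prod_bound {b L : ℕ} (hb : 2 ≤ b) {D : ℕ → Finset ℕ} {f : ℕ → ℕ → ℚ}
    (hne : ∀ j < L, (D j).Nonempty) (hD : ∀ j, D j ⊆ range b)
    (hpos : ∀ c, Pt b D f L 0 c True → 0 < c) :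
    (∏ j ∈ range L, (D j).card) ^ 2 ≤ b ^ 2 * K b ^ L := by
  classical
  have hb0 : 0 < b := by omega
  have hK1 := one_le_K hb
  have hKb := K_le hb
  have hcard : ∀ j, (D j).card ≤ b := fun j => by simpa using card_le_card (hD j)
  have hk : ∀ j < L, ¬ Fr b D f (j + 1) → (D j).card ≤ (b + 1) / 2 := by
    intro j hj h
    by_contra hcon
    exact h (fr_succ hne hD hpos hj (by omega))
  have hk' : ∀ j < L, Fr b D f j → (D j).card ≤ (b + 1) / 2 := by
    intro j hj h
    by_contra hcon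
    obtain ⟨t, ht, ht'⟩ := consecutive (hD j) (by omega : b + 2 ≤ 2 * (D j).card)
    exact no_consec hne hpos hj h ht ht'
  have hR : ∀ j < L, Fr b D f j → ¬ Fr b D f (j + 1) → (D j).card ≤ R b := by
    intro j hj h h'
    obtain ⟨φ, γ, hr⟩ := reset_of hne hD hpos hj h h'
    exact hr.card_le hb0 (hD j)
  have key : ∀ n ≤ L, (¬ Fr b D f n → (∏ j ∈ range n, (D j).card) ^ 2 ≤ K b ^ n) ∧
      (∏ j ∈ range n, (D j).card) ^ 2 * K b ≤ b ^ 2 * K b ^ n := by
    intro n
    induction n with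
    | zero =>
      intro _
      simp only [range_zero, prod_empty, one_pow, pow_zero, one_mul, mul_one]
      exact ⟨fun _ => le_rfl, hKb⟩
    | succ n ih =>
      intro hn
      obtain ⟨ih1, ih2⟩ := ih (by omega)
      have hnL : n < L := by omega
      rw [prod_range_succ, mul_pow]
      obtain ⟨P, hP⟩ : ∃ P, P = (∏ j ∈ range n, (D j).card) ^ 2 := ⟨_, rfl⟩
      rw [← hP] at ih1 ih2 ⊢
      have hsb : (D n).card ^ 2 ≤ b ^ 2 := Nat.pow_le_pow_left (hcard n) 2
      by_cases hF : Fr b D f n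
      · have h1 : (D n).card ^ 2 ≤ K b :=
          (Nat.pow_le_pow_left (hk' n hnL hF) 2).trans (half_sq_le_K b)
        refine ⟨fun hF' => ?_, ?_⟩
        · have h2 : (D n).card ^ 2 ≤ R b ^ 2 := Nat.pow_le_pow_left (hR n hnL hF hF') 2
          have h3 : P * (D n).card ^ 2 * K b ≤ K b ^ (n + 1) * K b := by
            calc P * (D n).card ^ 2 * K b = (P * K b) * (D n).card ^ 2 := by ring
              _ ≤ (b ^ 2 * K b ^ n) * R b ^ 2 := Nat.mul_le_mul ih2 h2
              _ = K b ^ n * (b * R b) ^ 2 := by ring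
              _ ≤ K b ^ n * (K b) ^ 2 :=
                Nat.mul_le_mul_left _ (Nat.pow_le_pow_left (mul_R_le_K b) 2)
              _ = K b ^ (n + 1) * K b := by ring
          exact Nat.le_of_mul_le_mul_right h3 (by omega)
        · calc P * (D n).card ^ 2 * K b = (P * K b) * (D n).card ^ 2 := by ring
            _ ≤ (b ^ 2 * K b ^ n) * K b := Nat.mul_le_mul ih2 h1
            _ = b ^ 2 * K b ^ (n + 1) := by ring
      · have h1 := ih1 hF
        refine ⟨fun hF' => ?_, ?_⟩
        · have h2 : (D n).card ^ 2 ≤ K b :=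
            (Nat.pow_le_pow_left (hk n hnL hF') 2).trans (half_sq_le_K b)
          calc P * (D n).card ^ 2 ≤ K b ^ n * K b := Nat.mul_le_mul h1 h2
            _ = K b ^ (n + 1) := by ring
        · calc P * (D n).card ^ 2 * K b ≤ (K b ^ n * b ^ 2) * K b :=
              Nat.mul_le_mul_right _ (Nat.mul_le_mul h1 hsb)
            _ = b ^ 2 * K b ^ (n + 1) := by ring
  obtain ⟨-, h⟩ := key L le_rfl
  exact le_trans (Nat.le_mul_of_pos_right _ hK1) h

end Pool.Agent.V5helper56.PH
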