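import Pool.Agent.N389.AS.Engine

/-!
# Words without a pattern decided by an additive statistic of restricted type

This is a variant of `Pool.Agent.N389.AS.Engine` relative to a family of maps `π j : X → Y`: the
statistic is a sum of functions of the letters `x c` each of which is a sum of functions of the
`π j (x c)`. The terms of the patterns may be outside of the set `Λ` of letters in which a set of
coordinates is free: their distributions are compared, after applying the maps `π j`, with the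
distributions of a family of letters in `Λ`.
-/

set_option autoImplicit false
set_option linter.unusedSectionVars false

namespace Pool.Agent.V5helper56.PH

open Finset
open Pool.Agent.TH197.Sym (Free)
open Pool.Agent.N389.AS (card_colors ell jay pow_le_ell ell_lt one_le_ell one_le_jay
  petals_const choose_big card_of_not_shat)

variable {X Q J Y : Type} [Fintype X] [DecidableEq X] [Fintype Q] [DecidableEq Q]
  [Fintype J] [Fintype Y] [DecidableEq Y] {k : ℕ}
variable {F : Fin k → Q → X} {nt : Q → Prop} (π : J → X → Y)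

/-- a sum of functions of the `π j x` -/
def DA {G : Type} [AddCommGroup G] (φ : X → G) : Prop :=
  ∃ g : J → Y → G, ∀ x, φ x = ∑ j, g j (π j x)

/-- there are patterns, not all of them trivial, and letters in `S` with the same distributions after
applying each of the maps `π j` -/
def Comp (F : Fin k → Q → X) (nt : Q → Prop) (S : Finset X) : Prop :=
  ∃ (W : ℕ) (e : Fin W → Q) (r : Fin W → X), (∃ s, nt (e s)) ∧ (∀ s, r s ∈ S) ∧
    ∀ (G : Type) [AddCommGroup G] (φ : X → G), DA π φ → ∀ i, ∑ s, φ (F i (e s)) = ∑ s, φ (r s)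

/-- the conclusion of the existence theorems: there is a word `y` over `Λ` on `I` such that for every
word `x` which agrees with `y` on `I` there is a pattern of words with the same statistic -/
def Good (F : Fin k → Q → X) (nt : Q → Prop) (Λ : Finset X) {n : ℕ} {G : Type}
    [AddCommGroup G] (f : Fin n → X → G) (I : Finset (Fin n)) : Prop :=
  ∃ y : Fin n → X, (∀ c ∈ I, y c ∈ Λ) ∧ ∀ x : Fin n → X, (∀ c ∈ I, x c = y c) →
    ∃ q : Fin n → Q, (∃ c, nt (q c)) ∧ ∀ i, ∑ c, f c (F i (q c)) = ∑ c, f c (x c)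

/-- From petals to patterns. -/
theorem good_of_petals {n : ℕ} {G : Type} [AddCommGroup G] (τ : X → Q)
    (hτ : ∀ i v, F i (τ v) = v) (Λ : Finset X) (f : Fin n → X → G) (I : Finset (Fin n)) {W : ℕ}
    (e : Fin W → Q) (r : Fin W → X) (s₀ : Fin W) (hnt : nt (e s₀)) (hmem : ∀ s, r s ∈ Λ)
    (hbal : ∀ i, ∀ c, ∑ s, f c (F i (e s)) = ∑ s, f c (r s)) (a₀ : X) (ha₀ : a₀ ∈ Λ)
    (Y : Finset (Fin n)) (S : Fin W → Finset (Fin n)) (hS : ∀ s, S s ⊆ I ∧ Y ⊂ S s)
    (hSΨ : ∀ s s', (fun b => ∑ c ∈ S s, (f c b - f c a₀)) =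
      fun b => ∑ c ∈ S s', (f c b - f c a₀))
    (hd : ∀ s s', s ≠ s' → Disjoint (S s \ Y) (S s' \ Y)) : Good F nt Λ f I := by
  classical
  set Ψ : Finset (Fin n) → X → G := fun T b => ∑ c ∈ T, (f c b - f c a₀) with hΨ
  set P : Fin W → Finset (Fin n) := fun s => S s \ Y with hP
  have hPΨ : ∀ s s', Ψ (P s) = Ψ (P s') := by
    have h1 : ∀ s, ∀ b, Ψ (P s) b + Ψ Y b = Ψ (S s) b := by
      intro s b
      simp only [hΨ, hP]
      exact sum_sdiff (hS s).2.1
    intro s s'
    funext b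
    have h2 := h1 s b
    have h3 := h1 s' b
    have h4 : Ψ (S s) = Ψ (S s') := hSΨ s s'
    rw [h4, ← h3] at h2
    exact add_right_cancel h2
  have hPne : ∀ s, (P s).Nonempty := fun s => by
    rw [hP]
    exact sdiff_nonempty.2 (hS s).2.2
  have huniq : ∀ s s' c, c ∈ P s → c ∈ P s' → s = s' := by
    intro s s' c h1 h2
    by_contra hne
    exact disjoint_left.1 (hd s s' hne) h1 h2
  -- the pattern and the letter chosen at `c`
  let pat : Fin n → Q → Q := fun c t => if h : ∃ s, c ∈ P s then e h.choose else t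
  let ref : Fin n → X := fun c => if h : ∃ s, c ∈ P s then r h.choose else a₀
  have hpat : ∀ s c t, c ∈ P s → pat c t = e s := by
    intro s c t hc
    have h : ∃ s, c ∈ P s := ⟨s, hc⟩
    simp only [pat, dif_pos h]
    rw [huniq _ s c h.choose_spec hc]
  have href : ∀ s c, c ∈ P s → ref c = r s := by
    intro s c hc
    have h : ∃ s, c ∈ P s := ⟨s, hc⟩
    simp only [ref, dif_pos h]
    rw [huniq _ s c h.choose_spec hc]
  have hpat' : ∀ c t, (¬ ∃ s, c ∈ P s) → pat c t = t := by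
    intro c t h
    simp only [pat, dif_neg h]
  refine ⟨ref, ?_, ?_⟩
  · intro c _
    by_cases h : ∃ s, c ∈ P s
    · obtain ⟨s, hs⟩ := h
      rw [href s c hs]
      exact hmem s
    · simp only [ref, dif_neg h]
      exact ha₀
  · intro x hx
    refine ⟨fun c => pat c (τ (x c)), ?_, ?_⟩
    · obtain ⟨c, hc⟩ := hPne s₀
      refine ⟨c, ?_⟩
      simp only
      rw [hpat s₀ c _ hc]
      exact hnt
    · intro i
      rw [← sub_eq_zero, ← sum_sub_distrib]
      have h0 : ∀ c ∈ (univ : Finset (Fin n)), c ∉ (univ : Finset (Fin W)).biUnion P →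
          f c (F i (pat c (τ (x c)))) - f c (x c) = 0 := by
        intro c _ hc
        have h : ¬ ∃ s, c ∈ P s := by
          rintro ⟨s, hs⟩
          exact hc (mem_biUnion.2 ⟨s, mem_univ _, hs⟩)
        rw [hpat' c _ h, hτ, sub_self]
      rw [← sum_subset (subset_univ _) h0, sum_biUnion (fun s _ s' _ hss => hd s s' hss)]
      have h1 : ∀ s ∈ (univ : Finset (Fin W)),
          ∑ c ∈ P s, (f c (F i (pat c (τ (x c)))) - f c (x c)) =
          Ψ (P s) (F i (e s)) - Ψ (P s) (r s) := by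
        intro s _
        simp only [hΨ]
        rw [← sum_sub_distrib]
        apply sum_congr rfl
        intro c hc
        have hcI : c ∈ I := (hS s).1 (sdiff_subset hc)
        rw [hpat s c _ hc, hx c hcI, href s c hc]
        abel
      rw [sum_congr rfl h1, sum_sub_distrib, sub_eq_zero]
      have h2 : ∀ x : Fin W → X, ∑ s : Fin W, Ψ (P s) (x s) =
          ∑ c ∈ P s₀, (∑ s : Fin W, f c (x s) - ∑ _s : Fin W, f c a₀) := by
        intro x
        rw [sum_congr rfl fun s _ => by rw [hPΨ s s₀]]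
        simp only [hΨ]
        rw [sum_comm]
        apply sum_congr rfl
        intro c _
        rw [sum_sub_distrib]
      rw [h2 fun s => F i (e s), h2 r]
      apply sum_congr rfl
      intro c _
      rw [hbal i c]

/-- the threshold `N V` for the number of coordinates is good for the set `Λ` of letters -/
def Patt (F : Fin k → Q → X) (nt : Q → Prop) (Λ : Finset X) (N : ℕ → ℕ) : Prop :=
  ∀ (n : ℕ) (G : Type) [AddCommGroup G] [DecidableEq G] (f : Fin n → X → G) (V : ℕ)
    (I : Finset (Fin n)), (∀ c, DA π (f c)) →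
    (univ.image fun x : Fin n → X => ∑ c, f c (x c)).card ≤ V →
    N V ≤ I.card → Good F nt Λ f I

lemma Patt.mono {Λ : Finset X} {N N' : ℕ → ℕ} (h : Patt π F nt Λ N)
    (hN : ∀ V, N V ≤ N' V) : Patt π F nt Λ N' :=
  fun n G _ _ f V I hDA hV hI => h n G f V I hDA hV ((hN V).trans hI)

/-- **Existence of patterns.** -/
theorem patt_comp (τ : X → Q) (hτ : ∀ i v, F i (τ v) = v) (Λ : Finset X)
    (hΛ : Comp π F nt Λ) : ∃ W : ℕ, Patt π F nt Λ fun V =>
      (2 * (64 * (W * (W * jay (Fintype.card X) V))) + 1) * ell (Fintype.card X) V := by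
  classical
  obtain ⟨W, e, r, ⟨s₀, hs₀⟩, hr, hbal⟩ := hΛ
  refine ⟨W, ?_⟩
  intro n G _ _ f V I hDA hV hI
  have hW1 : 1 ≤ W := by
    have := s₀.2
    omega
  obtain ⟨a₀, ha₀⟩ : ∃ a₀, a₀ = r s₀ := ⟨_, rfl⟩
  obtain ⟨R, hR, hRm⟩ := card_colors f V hV a₀
  obtain ⟨Y', S, hS, hSΨ, hd⟩ := petals_const W (ell (Fintype.card X) V) (jay (Fintype.card X) V)
    (V ^ Fintype.card X) hW1 (one_le_jay _ _) (ell_lt _ _) I
    (fun T => fun b => ∑ c ∈ T, (f c b - f c a₀)) R hRm hR
    (choose_big _ _ _ _ (one_le_ell _ _) (pow_le_ell _ _) hI)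
  exact good_of_petals τ hτ Λ f I e r s₀ hs₀ hr (fun i c => hbal G (f c) (hDA c) i) a₀
    (by rw [ha₀]; exact hr s₀) Y' S hS hSΨ hd

/-- `A` is decided by an additive statistic of the restricted type with at most `V` values, with
values in some abelian group. -/
def Dec (V : ℕ) {n : ℕ} (A : Finset (Fin n → X)) : Prop :=
  ∃ (G : Type) (_ : AddCommGroup G) (f : Fin n → X → G) (D : Set G),
    (∀ c, DA π (f c)) ∧
    (Set.range fun x : Fin n → X => ∑ c, f c (x c)).ncard ≤ V ∧
    ∀ x, x ∈ A ↔ ∑ c, f c (x c) ∈ D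

lemma Dec.mono {V V' n : ℕ} (h : V ≤ V') {A : Finset (Fin n → X)} (hA : Dec π V A) :
    Dec π V' A := by
  obtain ⟨G, i, f, D, h0, h1, h2⟩ := hA
  exact ⟨G, i, f, D, h0, h1.trans h, h2⟩

/-- **Main bound.** -/
theorem bound (h : ℕ) (N : ℕ → ℕ) (hN1 : ∀ V, 1 ≤ N V)
    (H : ∀ Λ : Finset X, Λ.card = h + 1 → Patt π F nt Λ N) {n V : ℕ}
    {A : Finset (Fin n → X)}
    (hA : Free F nt A) (hD : Dec π V A) {t : ℝ} (ht : 0 < t) (ht1 : t ≤ 1) :
    (A.card : ℝ) ≤ (h + (Fintype.card X * 2 ^ Fintype.card X : ℕ) * t) ^ n *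
      (1 / t) ^ (2 ^ Fintype.card X * N V) := by
  classical
  obtain ⟨G, iG, f, D, hDA, hV, hAD⟩ := hD
  have hV' : (univ.image fun x : Fin n → X => ∑ c, f c (x c)).card ≤ V := by
    refine le_trans (le_of_eq ?_) hV
    rw [← Set.ncard_coe_finset]
    congr 1
    ext g
    simp
  apply card_of_not_shat h t ht ht1 n _ A
  rintro ⟨I, hI, S, hS, hy⟩
  -- pigeonhole
  obtain ⟨Λ, hΛ⟩ : ∃ Λ : Finset X, N V ≤ (I.filter fun c => S c = Λ).card := by
    by_contra hcon
    push Not at hcon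
    have h1 : I.card = ∑ Λ : Finset X, (I.filter fun c => S c = Λ).card :=
      card_eq_sum_card_fiberwise fun c _ => by simp
    have h2 : ∑ Λ : Finset X, (I.filter fun c => S c = Λ).card < ∑ _Λ : Finset X, N V :=
      sum_lt_sum_of_nonempty univ_nonempty fun Λ _ => hcon Λ
    rw [← h1, hI, sum_const, card_univ, Fintype.card_finset, smul_eq_mul] at h2
    exact lt_irrefl _ h2
  obtain ⟨c₁, hc₁⟩ := card_pos.1 (lt_of_lt_of_le (hN1 V) hΛ)
  have hΛc : Λ.card = h + 1 := by
    obtain ⟨h1, h2⟩ := mem_filter.1 hc₁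
    rw [← h2]
    exact hS c₁ h1
  obtain ⟨y, hyΛ, hyx⟩ := H Λ hΛc n G f V (I.filter fun c => S c = Λ) hDA hV' hΛ
  have hSne : ∀ c ∈ I, (S c).Nonempty := fun c hc => by
    rw [← card_pos, hS c hc]
    omega
  let y' : Fin n → X := fun c => if h : c ∈ I ∧ S c ≠ Λ then (hSne c h.1).choose else y c
  obtain ⟨x, hx, hxy⟩ := hy y' (fun c hc => by
    by_cases h : S c ≠ Λ
    · have h' : c ∈ I ∧ S c ≠ Λ := ⟨hc, h⟩
      simp only [y', dif_pos h']
      exact (hSne c h'.1).choose_spec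
    · have h' : ¬ (c ∈ I ∧ S c ≠ Λ) := fun hh => h hh.2
      simp only [y', dif_neg h']
      push Not at h
      rw [h]
      exact hyΛ c (mem_filter.2 ⟨hc, h⟩))
  obtain ⟨q, ⟨c, hc⟩, hq⟩ := hyx x (fun c hc => by
    obtain ⟨h1, h2⟩ := mem_filter.1 hc
    rw [hxy c h1]
    have h' : ¬ (c ∈ I ∧ S c ≠ Λ) := fun hh => hh.2 h2
    simp only [y', dif_neg h'])
  refine hA q (fun i => ?_) c hc
  rw [hAD, hq i, ← hAD]
  exact hx

/-- the threshold -/
theorem exists_threshold (τ : X → Q) (hτ : ∀ i v, F i (τ v) = v) (h : ℕ)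
    (hmax : ∀ S : Finset X, ¬ Comp π F nt S → S.card ≤ h) :
    ∃ K : ℕ, 1 ≤ K ∧ ∀ Λ : Finset X, Λ.card = h + 1 → Patt π F nt Λ fun V =>
      K * jay (Fintype.card X) V * ell (Fintype.card X) V := by
  classical
  have hex : ∀ Λ : Finset X, ∃ W : ℕ, Λ.card = h + 1 → Patt π F nt Λ fun V =>
      (2 * (64 * (W * (W * jay (Fintype.card X) V))) + 1) * ell (Fintype.card X) V := by
    intro Λ
    by_cases hΛ : Comp π F nt Λ
    · obtain ⟨W, hW⟩ := patt_comp (F := F) (nt := nt) π τ hτ Λ hΛ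
      exact ⟨W, fun _ => hW⟩
    · exact ⟨1, fun hc => absurd (hmax Λ hΛ) (by omega)⟩
  choose W hW using hex
  obtain ⟨W₀, hW₀⟩ : ∃ W₀, ∀ Λ, W Λ ≤ W₀ :=
    ⟨∑ Λ, W Λ, fun Λ => single_le_sum (fun _ _ => Nat.zero_le _) (mem_univ Λ)⟩
  refine ⟨2 * (64 * (W₀ * W₀)) + 1, by omega, fun Λ hΛ => (hW Λ hΛ).mono _ fun V => ?_⟩
  apply Nat.mul_le_mul_right
  have h3 : W Λ * W Λ ≤ W₀ * W₀ := Nat.mul_le_mul (hW₀ Λ) (hW₀ Λ)
  have h4 : W Λ * (W Λ * jay (Fintype.card X) V) ≤ W₀ * W₀ * jay (Fintype.card X) V := by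
    rw [← mul_assoc]
    exact Nat.mul_le_mul_right _ h3
  have h5 := one_le_jay (Fintype.card X) V
  nlinarith

end Pool.Agent.V5helper56.PH
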