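import Pool.Agent.V5helper56.PH.Rate

/-!
# The lower bound
-/

set_option autoImplicit false

namespace Pool.Agent.V5helper56.PH

open Finset

/-- the number with given digits -/
def num (b m : ℕ) (x : ℕ → ℕ) : ℕ := ∑ i ∈ range m, x i * b ^ i

theorem num_succ (b m : ℕ) (x : ℕ → ℕ) : num b (m + 1) x = x 0 + b * num b m fun i => x (i + 1) := by
  unfold num
  rw [sum_range_succ', pow_zero, mul_one, add_comm, mul_sum]
  congr 1
  apply sum_congr rfl
  intro i _
  rw [pow_succ]
  ring

theorem num_lt {b : ℕ} (hb : 0 < b) : ∀ (m : ℕ) (x : ℕ → ℕ), (∀ i < m, x i < b) → num b m x < b ^ m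
  | 0, x, _ => by simp [num]
  | m + 1, x, hx => by
      rw [num_succ]
      have h1 := num_lt hb m (fun i => x (i + 1)) fun i hi => hx (i + 1) (by omega)
      have h2 := hx 0 (by omega)
      calc x 0 + b * num b m (fun i => x (i + 1)) < b + b * num b m (fun i => x (i + 1)) := by omega
        _ = b * (num b m (fun i => x (i + 1)) + 1) := by ring
        _ ≤ b * b ^ m := Nat.mul_le_mul_left _ h1
        _ = b ^ (m + 1) := by ring

theorem digit_num {b : ℕ} (hb : 0 < b) : ∀ (m : ℕ) (x : ℕ → ℕ), (∀ i < m, x i < b) → ∀ i < m,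
    num b m x / b ^ i % b = x i
  | 0, _, _, i, hi => absurd hi (Nat.not_lt_zero i)
  | m + 1, x, hx, i, hi => by
      rw [num_succ]
      cases i with
      | zero =>
        rw [pow_zero, Nat.div_one, Nat.add_mul_mod_self_left, Nat.mod_eq_of_lt (hx 0 (by omega))]
      | succ i =>
        rw [pow_succ, mul_comm (b ^ i) b, ← Nat.div_div_eq_div_mul,
          Nat.add_mul_div_left _ _ hb, Nat.div_eq_of_lt (hx 0 (by omega)), zero_add]
        exact digit_num hb m (fun i => x (i + 1)) (fun i hi => hx (i + 1) (by omega)) i (by omega)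

theorem num_digits {b : ℕ} (hb : 0 < b) {m a : ℕ} (ha : a < b ^ m) :
    num b m (fun i => a / b ^ i % b) = a := by
  have h1 := recon b a m
  rw [Nat.div_eq_of_lt ha, mul_zero, add_zero] at h1
  exact h1.symm

/-- **The general construction.** -/
theorem lower_gen {b m : ℕ} (hb : 2 ≤ b) (E : ℕ → Finset ℕ) (hE : ∀ i < m, E i ⊆ range b)
    (hNC : ∀ x y z : ℕ → ℕ, (∀ i < m, x i ∈ E i ∧ y i ∈ E i ∧ z i ∈ E i) →
      ∑ i ∈ range m, ((x i : ℤ) + z i - 2 * y i) * b ^ i = 0 → ∀ i < m, x i + z i = 2 * y i) :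
    ∃ A : Finset ℕ, DecU b m ((m + 1) * (m * b ^ 2 + 1)) A ∧ ThreeAPFree (A : Set ℕ) ∧
      ∏ i ∈ range m, (E i).card ≤ (m * b ^ 2 + 1) * A.card := by
  classical
  have hb0 : 0 < b := by omega
  obtain ⟨dg, hdg⟩ : ∃ dg : ℕ → ℕ → ℕ, ∀ a i, dg a i = a / b ^ i % b := ⟨_, fun _ _ => rfl⟩
  have hdgb : ∀ a i, dg a i < b := fun a i => by rw [hdg]; exact Nat.mod_lt _ hb0
  obtain ⟨f, hf⟩ : ∃ f : ℕ → ℕ → ℤ × ℤ, ∀ i d, f i d = (if d ∈ E i then 0 else 1, (d : ℤ) ^ 2) :=
    ⟨_, fun _ _ => rfl⟩
  obtain ⟨Φ, hΦ⟩ : ∃ Φ : ℕ → ℤ × ℤ, ∀ a, Φ a = ∑ i ∈ range m, f i (dg a i) := ⟨_, fun _ => rfl⟩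
  have hΦ1 : ∀ a, (Φ a).1 = ∑ i ∈ range m, if dg a i ∈ E i then 0 else 1 := by
    intro a
    rw [hΦ, Prod.fst_sum]
    simp only [hf]
  have hΦ2 : ∀ a, (Φ a).2 = ∑ i ∈ range m, (dg a i : ℤ) ^ 2 := by
    intro a
    rw [hΦ, Prod.snd_sum]
    simp only [hf]
  -- the base set
  obtain ⟨B, hB⟩ : ∃ B : Finset ℕ, B = (range (b ^ m)).filter fun a => ∀ i < m, dg a i ∈ E i :=
    ⟨_, rfl⟩
  have hBm : ∀ a, a ∈ B ↔ a < b ^ m ∧ ∀ i < m, dg a i ∈ E i := by
    intro a
    rw [hB, mem_filter, mem_range]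
  have hBΦ : ∀ a, a < b ^ m → (a ∈ B ↔ (Φ a).1 = 0) := by
    intro a ha
    rw [hBm, hΦ1]
    constructor
    · rintro ⟨-, h⟩
      apply sum_eq_zero
      intro i hi
      rw [if_pos (h i (mem_range.1 hi))]
    · intro h
      refine ⟨ha, fun i hi => ?_⟩
      by_contra hne
      rw [sum_eq_zero_iff_of_nonneg (fun i _ => by split_ifs <;> norm_num)] at h
      have := h i (mem_range.2 hi)
      rw [if_neg hne] at this
      exact one_ne_zero this
  have hBcard : B.card = ∏ i ∈ range m, (E i).card := by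
    rw [Finset.prod_range, ← Fintype.card_piFinset]
    symm
    obtain ⟨ex, hex⟩ : ∃ ex : (Fin m → ℕ) → ℕ → ℕ, ∀ x i, ∀ h : i < m, ex x i = x ⟨i, h⟩ :=
      ⟨fun x i => if h : i < m then x ⟨i, h⟩ else 0, fun x i h => dif_pos h⟩
    have hlt : ∀ x ∈ Fintype.piFinset (fun i : Fin m => E i), ∀ i < m, ex x i < b := by
      intro x hx i hi
      rw [hex x i hi]
      exact mem_range.1 (hE i hi (Fintype.mem_piFinset.1 hx ⟨i, hi⟩))
    apply card_bij (fun x _ => num b m (ex x))
    · intro x hx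
      rw [hBm]
      refine ⟨num_lt hb0 m _ (hlt x hx), fun i hi => ?_⟩
      rw [hdg, digit_num hb0 m _ (hlt x hx) i hi, hex x i hi]
      exact Fintype.mem_piFinset.1 hx ⟨i, hi⟩
    · intro x hx y hy hxy
      funext i
      have h1 := digit_num hb0 m _ (hlt x hx) i i.2
      have h2 := digit_num hb0 m _ (hlt y hy) i i.2
      rw [hex x i i.2] at h1
      rw [hex y i i.2] at h2
      rw [← h1, ← h2, hxy]
    · intro a ha
      obtain ⟨ha1, ha2⟩ := (hBm a).1 ha
      refine ⟨fun i => dg a i, Fintype.mem_piFinset.2 fun i => ha2 i i.2, ?_⟩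
      have h3 : num b m (ex fun i : Fin m => dg a i) = num b m (fun i => a / b ^ i % b) := by
        unfold num
        apply sum_congr rfl
        intro i hi
        rw [hex _ i (mem_range.1 hi), hdg]
      rw [h3, num_digits hb0 ha1]
  -- pigeonhole over the second coordinate
  have hrange : ∀ a, 0 ≤ (Φ a).2 ∧ (Φ a).2 ≤ (m * b ^ 2 : ℕ) := by
    intro a
    rw [hΦ2]
    refine ⟨sum_nonneg fun i _ => by positivity, ?_⟩
    calc ∑ i ∈ range m, (dg a i : ℤ) ^ 2 ≤ ∑ _i ∈ range m, (b : ℤ) ^ 2 := by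
          apply sum_le_sum
          intro i _
          have h1 : (dg a i : ℤ) ≤ b := by exact_mod_cast (hdgb a i).le
          exact pow_le_pow_left₀ (by positivity) h1 2
      _ = ((m * b ^ 2 : ℕ) : ℤ) := by
          rw [sum_const, card_range, nsmul_eq_mul]
          push_cast
          ring
  obtain ⟨t, -, ht⟩ : ∃ t ∈ range (m * b ^ 2 + 1),
      B.card ≤ (m * b ^ 2 + 1) * (B.filter fun a => (Φ a).2 = t).card := by
    by_contra hcon
    push Not at hcon
    have h1 : B.card = ∑ t ∈ range (m * b ^ 2 + 1), (B.filter fun a => (Φ a).2.toNat = t).card :=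
      card_eq_sum_card_fiberwise fun a _ => by
        simp only [coe_range, Set.mem_Iio]
        have := (hrange a).2
        omega
    have h2 : ∀ t : ℕ, (B.filter fun a => (Φ a).2.toNat = t) = B.filter fun a => (Φ a).2 = t := by
      intro t
      apply filter_congr
      intro a _
      have := (hrange a).1
      omega
    simp only [h2] at h1
    have h3 : (m * b ^ 2 + 1) * B.card < (m * b ^ 2 + 1) * B.card := by
      calc (m * b ^ 2 + 1) * B.card = ∑ t ∈ range (m * b ^ 2 + 1),
            (m * b ^ 2 + 1) * (B.filter fun a => (Φ a).2 = t).card := by rw [h1, mul_sum]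
        _ < ∑ _t ∈ range (m * b ^ 2 + 1), B.card :=
            sum_lt_sum_of_nonempty ⟨0, by simp⟩ hcon
        _ = (m * b ^ 2 + 1) * B.card := by rw [sum_const, card_range, smul_eq_mul]
    exact lt_irrefl _ h3
  refine ⟨B.filter fun a => (Φ a).2 = t, ⟨?_, ℤ × ℤ, inferInstance, f, {((0 : ℤ), (t : ℤ))}, ?_, ?_⟩, ?_, ?_⟩
  · intro a ha
    exact mem_range.2 ((hBm a).1 (mem_filter.1 ha).1).1
  · have h1 : ((fun a => ∑ i ∈ range m, f i (a / b ^ i % b)) '' Set.Iio (b ^ m)) ⊆
        (((range (m + 1)).image (Nat.cast : ℕ → ℤ) ×ˢ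
          (range (m * b ^ 2 + 1)).image (Nat.cast : ℕ → ℤ) : Finset (ℤ × ℤ)) : Set (ℤ × ℤ)) := by
      rintro _ ⟨a, -, rfl⟩
      have h2 : (∑ i ∈ range m, f i (a / b ^ i % b)) = Φ a := by
        rw [hΦ]
        simp only [hdg]
      simp only [h2]
      rw [mem_coe, mem_product, mem_image, mem_image]
      constructor
      · refine ⟨∑ i ∈ range m, if dg a i ∈ E i then 0 else 1, ?_, ?_⟩
        · rw [mem_range, Nat.lt_succ_iff]
          calc ∑ i ∈ range m, (if dg a i ∈ E i then 0 else 1) ≤ ∑ _i ∈ range m, 1 := by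
                apply sum_le_sum
                intro i _
                split_ifs <;> norm_num
            _ = m := by simp
        · rw [hΦ1]
          push_cast
          rfl
      · have h3 := hrange a
        refine ⟨(Φ a).2.toNat, ?_, ?_⟩
        · rw [mem_range]
          omega
        · exact Int.toNat_of_nonneg h3.1
    refine (Set.ncard_le_ncard h1 (finite_toSet _)).trans ?_
    rw [Set.ncard_coe_finset, card_product]
    apply Nat.mul_le_mul
    · exact card_image_le.trans (by simp)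
    · exact card_image_le.trans (by simp)
  · intro a ha
    have h2 : (∑ i ∈ range m, f i (a / b ^ i % b)) = Φ a := by
      rw [hΦ]
      simp only [hdg]
    rw [h2, mem_filter, hBΦ a ha, Set.mem_singleton_iff, Prod.ext_iff]
  · intro x hx y hy z hz hxz
    rw [mem_coe, mem_filter] at hx hy hz
    obtain ⟨hxB, hxt⟩ := hx
    obtain ⟨hyB, hyt⟩ := hy
    obtain ⟨hzB, hzt⟩ := hz
    obtain ⟨hxm, hxE⟩ := (hBm x).1 hxB
    obtain ⟨hym, hyE⟩ := (hBm y).1 hyB
    obtain ⟨hzm, hzE⟩ := (hBm z).1 hzB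
    have rx := num_digits hb0 hxm
    have ry := num_digits hb0 hym
    have rz := num_digits hb0 hzm
    have hdx : (fun i => x / b ^ i % b) = dg x := funext fun i => (hdg x i).symm
    have hdy : (fun i => y / b ^ i % b) = dg y := funext fun i => (hdg y i).symm
    have hdz : (fun i => z / b ^ i % b) = dg z := funext fun i => (hdg z i).symm
    rw [hdx] at rx
    rw [hdy] at ry
    rw [hdz] at rz
    have h1 : ∑ i ∈ range m, ((dg x i : ℤ) + dg z i - 2 * dg y i) * b ^ i = 0 := by
      have h2 : ((num b m (dg x) : ℕ) : ℤ) + (num b m (dg z) : ℕ) -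
          2 * (num b m (dg y) : ℕ) = 0 := by
        rw [rx, ry, rz]
        omega
      rw [← h2]
      unfold num
      push_cast
      rw [mul_sum, ← sum_add_distrib, ← sum_sub_distrib]
      apply sum_congr rfl
      intro i _
      ring
    have h2 := hNC (dg x) (dg y) (dg z) (fun i hi => ⟨hxE i hi, hyE i hi, hzE i hi⟩) h1
    rw [hΦ2] at hxt hyt hzt
    have h3 : ∑ i ∈ range m, ((dg x i : ℤ) - dg y i) ^ 2 = 0 := by
      have h4 : ∀ i ∈ range m, 2 * ((dg x i : ℤ) - dg y i) ^ 2 =
          (dg x i : ℤ) ^ 2 + (dg z i : ℤ) ^ 2 - 2 * (dg y i : ℤ) ^ 2 := by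
        intro i hi
        have h5 := h2 i (mem_range.1 hi)
        have h6 : (dg z i : ℤ) = 2 * dg y i - dg x i := by omega
        rw [h6]
        ring
      have h7 : 2 * ∑ i ∈ range m, ((dg x i : ℤ) - dg y i) ^ 2 = 0 := by
        rw [mul_sum, sum_congr rfl h4, sum_sub_distrib, sum_add_distrib, ← mul_sum, hxt, hyt, hzt]
        ring
      linarith
    rw [sum_eq_zero_iff_of_nonneg (fun i _ => sq_nonneg _)] at h3
    rw [← rx, ← ry]
    unfold num
    apply sum_congr rfl
    intro i hi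
    have h4 := h3 i hi
    have h5 : (dg x i : ℤ) - dg y i = 0 := by simpa using h4
    have h6 : dg x i = dg y i := by omega
    rw [h6]
  · rw [← hBcard]
    exact ht

/-- vanishing sums with small coefficients -/
theorem zero_of_sum {B : ℤ} (hB : 0 < B) : ∀ (m : ℕ) (δ : ℕ → ℤ), (∀ i < m, |δ i| < B) →
    ∑ i ∈ range m, δ i * B ^ i = 0 → ∀ i < m, δ i = 0
  | 0, _, _, _, i, hi => absurd hi (Nat.not_lt_zero i)
  | m + 1, δ, hδ, h, i, hi => by
      rw [sum_range_succ', pow_zero, mul_one] at h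
      have h1 : ∑ i ∈ range m, δ (i + 1) * B ^ (i + 1) =
          B * ∑ i ∈ range m, δ (i + 1) * B ^ i := by
        rw [mul_sum]
        apply sum_congr rfl
        intro i _
        rw [pow_succ]
        ring
      rw [h1] at h
      have h0 : δ 0 = 0 := by
        apply Int.eq_zero_of_abs_lt_dvd (m := B) _ (hδ 0 (by omega))
        exact ⟨-∑ i ∈ range m, δ (i + 1) * B ^ i, by linarith⟩
      rw [h0, add_zero] at h
      have h2 : ∑ i ∈ range m, δ (i + 1) * B ^ i = 0 := by
        rcases mul_eq_zero.1 h with h3 | h3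
        · omega
        · exact h3
      cases i with
      | zero => exact h0
      | succ i =>
        exact zero_of_sum hB m (fun i => δ (i + 1)) (fun i hi => hδ (i + 1) (by omega)) h2 i
          (by omega)

/-- small digits -/
theorem lower_half {b : ℕ} (hb : 2 ≤ b) (m : ℕ) : ∃ A : Finset ℕ,
    DecU b m ((m + 1) * (m * b ^ 2 + 1)) A ∧ ThreeAPFree (A : Set ℕ) ∧
      ((b + 1) / 2) ^ m ≤ (m * b ^ 2 + 1) * A.card := by
  obtain ⟨A, h1, h2, h3⟩ := lower_gen (m := m) hb (fun _ => range ((b + 1) / 2)) (by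
    intro i _ d hd
    have := mem_range.1 hd
    exact mem_range.2 (by omega)) (by
    intro x y z hxyz hs i hi
    have hbd : ∀ i < m, |(x i : ℤ) + z i - 2 * y i| < b := by
      intro i hi
      obtain ⟨h1, h2, h3⟩ := hxyz i hi
      have h4 := mem_range.1 h1
      have h5 := mem_range.1 h2
      have h6 := mem_range.1 h3
      rw [abs_lt]
      constructor <;> omega
    have h := zero_of_sum (B := (b : ℤ)) (by omega) m _ hbd hs i hi
    omega)
  refine ⟨A, h1, h2, ?_⟩
  simpa using h3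

theorem card_even_range (c : ℕ) : ((range (2 * c + 1)).filter fun d => d % 2 = 0).card = c + 1 := by
  induction c with
  | zero => decide
  | succ c ih =>
    have h : 2 * (c + 1) + 1 = 2 * c + 1 + 1 + 1 := by ring
    rw [h, range_add_one, range_add_one, filter_insert, filter_insert]
    have h1 : (2 * c + 1 + 1) % 2 = 0 := by omega
    have h2 : ¬ (2 * c + 1) % 2 = 0 := by omega
    rw [if_pos h1, if_neg h2, card_insert_of_notMem, ih]
    rw [mem_filter, mem_range]
    omega

/-- blocks of two digits -/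
theorem lower_two {b : ℕ} (hb : b % 4 = 2) (m : ℕ) : ∃ A : Finset ℕ,
    DecU b m ((m + 1) * (m * b ^ 2 + 1)) A ∧ ThreeAPFree (A : Set ℕ) ∧
      (b * ((b + 2) / 4)) ^ (m / 2) ≤ (m * b ^ 2 + 1) * A.card := by
  have hb2 : 2 ≤ b := by omega
  obtain ⟨c, hc⟩ : ∃ c, b = 4 * c + 2 := ⟨b / 4, by omega⟩
  obtain ⟨E, hE⟩ : ∃ E : ℕ → Finset ℕ, ∀ i, E i = if i % 2 = 0 then
      (if i + 1 < m then range b else {0}) else (range (2 * c + 1)).filter fun d => d % 2 = 0 :=
    ⟨_, fun _ => rfl⟩
  obtain ⟨A, h1, h2, h3⟩ := lower_gen (m := m) hb2 E (by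
    intro i _ d hd
    rw [hE] at hd
    rw [mem_range]
    split_ifs at hd
    · exact mem_range.1 hd
    · rw [mem_singleton] at hd
      omega
    · have := mem_range.1 (mem_filter.1 hd).1
      omega) (by
    intro x y z hxyz hs
    obtain ⟨δ, hδ⟩ : ∃ δ : ℕ → ℤ, ∀ i, δ i = (x i : ℤ) + z i - 2 * y i := ⟨_, fun _ => rfl⟩
    have hs' : ∑ i ∈ range m, δ i * (b : ℤ) ^ i = 0 := by
      rw [← hs]
      apply sum_congr rfl
      intro i _
      rw [hδ]
    -- bounds
    have hlow : ∀ i < m, i % 2 = 0 → |δ i| ≤ 2 * b - 2 := by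
      intro i hi hi2
      obtain ⟨g1, g2, g3⟩ := hxyz i hi
      rw [hE, if_pos hi2] at g1 g2 g3
      rw [hδ, abs_le]
      split_ifs at g1 g2 g3
      · have := mem_range.1 g1
        have := mem_range.1 g2
        have := mem_range.1 g3
        constructor <;> omega
      · rw [mem_singleton] at g1 g2 g3
        constructor <;> omega
    have hodd : ∀ i < m, i % 2 = 1 → |δ i| ≤ 4 * c ∧ δ i % 2 = 0 := by
      intro i hi hi2
      obtain ⟨g1, g2, g3⟩ := hxyz i hi
      rw [hE, if_neg (by omega)] at g1 g2 g3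
      obtain ⟨a1, a2⟩ := mem_filter.1 g1
      obtain ⟨b1, b2⟩ := mem_filter.1 g2
      obtain ⟨c1, c2⟩ := mem_filter.1 g3
      rw [mem_range] at a1 b1 c1
      rw [hδ]
      refine ⟨?_, by omega⟩
      rw [abs_le]
      constructor <;> omega
    have htop : m % 2 = 1 → δ (m - 1) = 0 := by
      intro hm
      obtain ⟨g1, g2, g3⟩ := hxyz (m - 1) (by omega)
      rw [hE, if_pos (by omega), if_neg (by omega), mem_singleton] at g1 g2 g3
      rw [hδ, g1, g2, g3]
      norm_num
    -- the sum over pairs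
    have hpair : ∑ j ∈ range (m / 2), (δ (2 * j) + b * δ (2 * j + 1)) * ((b : ℤ) ^ 2) ^ j = 0 := by
      rw [← hs']
      have hm : m = 2 * (m / 2) + m % 2 := by omega
      have h4 : ∑ i ∈ range m, δ i * (b : ℤ) ^ i = ∑ i ∈ range (2 * (m / 2)), δ i * (b : ℤ) ^ i := by
        rcases Nat.mod_two_eq_zero_or_one m with h0 | h0
        · congr 2
          omega
        · have h5 : m = 2 * (m / 2) + 1 := by omega
          have h6 := htop h0
          have h7 : m - 1 = 2 * (m / 2) := by omega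
          rw [h7] at h6
          conv_lhs => rw [h5, sum_range_succ]
          rw [h6, zero_mul, add_zero]
      rw [h4, sum_range_mul (fun i => δ i * (b : ℤ) ^ i) 2 (m / 2)]
      apply sum_congr rfl
      intro j _
      rw [sum_range_succ, sum_range_succ, range_zero, sum_empty, zero_add, add_zero, ← pow_mul,
        pow_succ]
      ring
    have hpz := zero_of_sum (B := (b : ℤ) ^ 2) (by positivity) (m / 2)
      (fun j => δ (2 * j) + b * δ (2 * j + 1)) (by
        intro j hj
        have g1 := hlow (2 * j) (by omega) (by omega)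
        have g2 := (hodd (2 * j + 1) (by omega) (by omega)).1
        rw [abs_le] at g1 g2
        have hbZ : (b : ℤ) = 4 * c + 2 := by exact_mod_cast hc
        rw [abs_lt]
        constructor <;> nlinarith) hpair
    have hz : ∀ j, 2 * j + 1 < m → δ (2 * j) = 0 ∧ δ (2 * j + 1) = 0 := by
      intro j hj
      have g0 : δ (2 * j) + b * δ (2 * j + 1) = 0 := hpz j (by omega)
      have g1 := hlow (2 * j) (by omega) (by omega)
      have g2 := (hodd (2 * j + 1) hj (by omega)).2
      obtain ⟨v, hv⟩ : ∃ v, δ (2 * j + 1) = 2 * v := ⟨δ (2 * j + 1) / 2, by omega⟩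
      rw [hv] at g0
      have g3 : v = 0 := by
        by_contra hne
        have hbZ : (2 : ℤ) ≤ b := by exact_mod_cast hb2
        rw [abs_le] at g1
        rcases lt_or_gt_of_ne hne with h4 | h4
        · have h5 : v ≤ -1 := by omega
          nlinarith
        · have h5 : 1 ≤ v := by omega
          nlinarith
      rw [g3] at hv g0
      exact ⟨by simpa using g0, by simpa using hv⟩
    intro i hi
    have hi0 : δ i = 0 := by
      rcases Nat.even_or_odd' i with ⟨j, hj | hj⟩
      · by_cases h4 : i + 1 < m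
        · rw [hj]
          exact (hz j (by omega)).1
        · have h5 : i = m - 1 := by omega
          rw [h5]
          exact htop (by omega)
      · rw [hj]
        exact (hz j (by omega)).2
    rw [hδ] at hi0
    omega)
  refine ⟨A, h1, h2, le_trans ?_ h3⟩
  have hcE : ∀ n, 2 * n ≤ m → ∏ i ∈ range (2 * n), (E i).card = (b * ((b + 2) / 4)) ^ n := by
    intro n
    induction n with
    | zero => intro _; simp
    | succ n ih =>
      intro hn
      have h4 : 2 * (n + 1) = 2 * n + 1 + 1 := by ring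
      rw [h4, prod_range_succ, prod_range_succ, ih (by omega), pow_succ, hE, hE,
        if_pos (by omega), if_pos (by omega), if_neg (by omega), card_range, card_even_range]
      have h5 : (b + 2) / 4 = c + 1 := by omega
      rw [h5]
      ring
  rcases Nat.mod_two_eq_zero_or_one m with h0 | h0
  · have h5 : m = 2 * (m / 2) := by omega
    conv_rhs => rw [h5]
    rw [hcE _ (by omega)]
  · have h5 : m = 2 * (m / 2) + 1 := by omega
    conv_rhs => rw [h5, prod_range_succ]
    rw [hcE _ (by omega), hE, if_pos (by omega), if_neg (by omega), card_singleton, mul_one]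

/-- **The lower bound.** -/
theorem lower {b : ℕ} (hb : 2 ≤ b) (m : ℕ) : ∃ A : Finset ℕ,
    DecU b m ((m + 1) * (m * b ^ 2 + 1)) A ∧ ThreeAPFree (A : Set ℕ) ∧
      √(κ b : ℝ) ^ m ≤ ((b * (m * b ^ 2 + 1) : ℕ) : ℝ) * A.card := by
  have hbR : (1 : ℝ) ≤ b := by
    have : 1 ≤ b := by omega
    exact_mod_cast this
  have hκ1 : (1 : ℝ) ≤ κ b := by exact_mod_cast one_le_κ hb
  have hs1 : 1 ≤ √(κ b : ℝ) := by
    rw [Real.one_le_sqrt]
    exact hκ1
  by_cases h : b % 4 = 2
  · obtain ⟨A, h1, h2, h3⟩ := lower_two h m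
    refine ⟨A, h1, h2, ?_⟩
    have hκ : κ b = b * ((b + 2) / 4) := by
      unfold κ
      rw [if_pos h]
    rw [← hκ] at h3
    have h4 : ((κ b : ℕ) : ℝ) ^ (m / 2) ≤ ((m * b ^ 2 + 1 : ℕ) : ℝ) * A.card := by
      exact_mod_cast h3
    have h5 : √(κ b : ℝ) ≤ b := by
      rw [Real.sqrt_le_left (by positivity)]
      exact_mod_cast κ_le hb
    calc √(κ b : ℝ) ^ m = √(κ b : ℝ) ^ (m % 2) * (√(κ b : ℝ) ^ 2) ^ (m / 2) := by
          rw [← pow_mul, ← pow_add, Nat.mod_add_div]
      _ = √(κ b : ℝ) ^ (m % 2) * (κ b : ℝ) ^ (m / 2) := by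
          rw [Real.sq_sqrt (by linarith)]
      _ ≤ b * (((m * b ^ 2 + 1 : ℕ) : ℝ) * A.card) := by
          apply mul_le_mul _ h4 (by positivity) (by positivity)
          rcases Nat.mod_two_eq_zero_or_one m with h0 | h0
          · rw [h0, pow_zero]
            exact hbR
          · rw [h0, pow_one]
            exact h5
      _ = _ := by
          push_cast
          ring
  · obtain ⟨A, h1, h2, h3⟩ := lower_half hb m
    refine ⟨A, h1, h2, ?_⟩
    have hκ : √(κ b : ℝ) = (((b + 1) / 2 : ℕ) : ℝ) := by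
      unfold κ
      rw [if_neg h]
      push_cast
      rw [Real.sqrt_sq]
      positivity
    rw [hκ]
    have h4 : ((((b + 1) / 2 : ℕ) : ℝ)) ^ m ≤ ((m * b ^ 2 + 1 : ℕ) : ℝ) * A.card := by
      exact_mod_cast h3
    refine h4.trans ?_
    apply mul_le_mul_of_nonneg_right _ (by positivity)
    have h5 : 1 * (m * b ^ 2 + 1) ≤ b * (m * b ^ 2 + 1) := Nat.mul_le_mul_right _ (by omega)
    rw [one_mul] at h5
    exact_mod_cast h5

end Pool.Agent.V5helper56.PH
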