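import Pool.Agent.V5helper56.PH.Blocks
import Pool.Agent.V5helper56.PH.Count

/-!
# Large sets of blocks
-/

set_option autoImplicit false

namespace Pool.Agent.V5helper56.PH

open Finset

variable {L b : ℕ}

/-- the digits of the elements of `S` at the place `j` -/
def Dg (S : Finset (X L b)) (j : ℕ) : Finset ℕ :=
  if h : j < L then S.image fun x => (x ⟨j, h⟩ : ℕ) else ∅

theorem mem_Dg {S : Finset (X L b)} {j d : ℕ} (hj : j < L) :
    d ∈ Dg S j ↔ ∃ x ∈ S, (x ⟨j, hj⟩ : ℕ) = d := by
  unfold Dg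
  rw [dif_pos hj, mem_image]

theorem Dg_sub (S : Finset (X L b)) (j : ℕ) : Dg S j ⊆ range b := by
  intro d hd
  unfold Dg at hd
  split_ifs at hd with h
  · rw [mem_image] at hd
    obtain ⟨x, -, rfl⟩ := hd
    exact mem_range.2 (x ⟨j, h⟩).2
  · simp at hd

theorem card_le_prod (S : Finset (X L b)) : S.card ≤ ∏ j ∈ range L, (Dg S j).card := by
  classical
  rw [Finset.prod_range]
  have h1 : S ⊆ Fintype.piFinset fun j : Fin L => S.image fun x => x j := by
    intro x hx
    rw [Fintype.mem_piFinset]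
    exact fun j => mem_image_of_mem _ hx
  refine (card_le_card h1).trans ?_
  rw [Fintype.card_piFinset]
  apply prod_le_prod' 
  intro j _
  have h2 : Dg S j = (S.image fun x => x j).image (Fin.val : Fin b → ℕ) := by
    unfold Dg
    rw [dif_pos j.2, image_image]
    rfl
  rw [h2, card_image_of_injective _ Fin.val_injective]

/-- **Large sets of blocks.** -/
theorem max_bound [NeZero L] (hb : 2 ≤ b) (S : Finset (X L b))
    (hS : ¬ Comp (π (L := L) (b := b)) F nt S) : S.card ≤ Nat.sqrt (b ^ 2 * K b ^ L) := by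
  classical
  rcases S.eq_empty_or_nonempty with rfl | hSne
  · simp
  obtain ⟨w, hw⟩ := hSne
  have hH : ¬ HBal S := fun h => hS (comp_of_hbal h)
  rcases hbal_or S with h | ⟨f, hf⟩
  · exact absurd h hH
  obtain ⟨g, hg⟩ : ∃ g : ℕ → ℕ → ℚ, ∀ (j : Fin L) (d : Fin b), g j d = f (j, d) := by
    refine ⟨fun j d => if h : j < L ∧ d < b then f (⟨j, h.1⟩, ⟨d, h.2⟩) else 0, fun j d => ?_⟩
    exact dif_pos ⟨j.2, d.2⟩
  have hmain : (∏ j ∈ range L, (Dg S j).card) ^ 2 ≤ b ^ 2 * K b ^ L := by
    refine prod_bound (f := g) hb ?_ (Dg_sub S) ?_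
    · intro j hj
      exact ⟨_, (mem_Dg hj).2 ⟨w, hw, rfl⟩⟩
    · rintro c ⟨x, y, z, h1, h2, h3, h4⟩
      have hx : ∀ j : Fin L, x j < b := fun j => mem_range.1 (Dg_sub S j (h1 j j.2).1)
      have hy : ∀ j : Fin L, y j < b := fun j => mem_range.1 (Dg_sub S j (h1 j j.2).2.1)
      have hz : ∀ j : Fin L, z j < b := fun j => mem_range.1 (Dg_sub S j (h1 j j.2).2.2)
      obtain ⟨X', hX'⟩ : ∃ X' : X L b, ∀ j, (X' j : ℕ) = x j := ⟨fun j => ⟨x j, hx j⟩, fun _ => rfl⟩
      obtain ⟨Y', hY'⟩ : ∃ Y' : X L b, ∀ j, (Y' j : ℕ) = y j := ⟨fun j => ⟨y j, hy j⟩, fun _ => rfl⟩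
      obtain ⟨Z', hZ'⟩ : ∃ Z' : X L b, ∀ j, (Z' j : ℕ) = z j := ⟨fun j => ⟨z j, hz j⟩, fun _ => rfl⟩
      have hval : val X' + val Z' = 2 * val Y' := by
        rw [Finset.sum_range] at h2
        have h5 : ((val X' + val Z' : ℕ) : ℤ) - ((2 * val Y' : ℕ) : ℤ) = 0 := by
          rw [zero_mul] at h2
          rw [← h2]
          unfold val
          push_cast
          rw [mul_sum, ← sum_add_distrib, ← sum_sub_distrib]
          apply sum_congr rfl
          intro j _
          rw [hX', hY', hZ']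
          ring
        omega
      obtain ⟨j₀, hj₀, hne⟩ := h4 trivial
      have hq : (⟨(X', Y', Z'), hval⟩ : Q L b) ∈ prog S := by
        rw [mem_prog]
        refine ⟨?_, ?_⟩
        · intro h5
          apply hne
          have h6 := congrArg (fun v : X L b => ((v ⟨j₀, hj₀⟩ : Fin b) : ℕ)) h5
          simp only [hX', hZ'] at h6
          exact h6
        · intro i j
          have hm : ∀ v : X L b, (v j : ℕ) ∈ Dg S j → ∃ u ∈ S, u j = v j := by
            intro v hv
            obtain ⟨u, hu, huv⟩ := (mem_Dg j.2).1 hv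
            exact ⟨u, hu, Fin.ext huv⟩
          fin_cases i
          · apply hm X'
            rw [hX']
            exact (h1 j j.2).1
          · apply hm Y'
            rw [hY']
            exact (h1 j j.2).2.1
          · apply hm Z'
            rw [hZ']
            exact (h1 j j.2).2.2
      have h5 := hf _ hq
      rw [form_apply] at h5
      simp only at h5
      rw [← h3, Finset.sum_range]
      refine lt_of_lt_of_eq h5 ?_
      apply sum_congr rfl
      intro j _
      rw [← hg, ← hg, ← hg, hX', hY', hZ']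
  rw [Nat.le_sqrt, ← sq]
  exact (Nat.pow_le_pow_left (card_le_prod S) 2).trans hmain

end Pool.Agent.V5helper56.PH
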