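import Pool.Agent.V5helper56.PH.Upper

/-!
# The growth rate
-/

set_option autoImplicit false

namespace Pool.Agent.V5helper56.PH

open Finset Filter Topology

/-- the square of the growth rate in the lower bound -/
def κ (b : ℕ) : ℕ := if b % 4 = 2 then b * ((b + 2) / 4) else ((b + 1) / 2) ^ 2

theorem K_eq {b : ℕ} (hb : 2 ≤ b) (h : b % 2 = 0 ∨ b = 3 ∨ b = 7) : K b = κ b := by
  unfold K κ R
  rcases h with h | rfl | rfl
  · rw [if_pos h]
    by_cases h4 : b % 4 = 2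
    · rw [if_pos h4]
      apply max_eq_right
      obtain ⟨c, rfl⟩ : ∃ c, b = 4 * c + 2 := ⟨b / 4, by omega⟩
      have h1 : (4 * c + 2 + 1) / 2 = 2 * c + 1 := by omega
      have h2 : (4 * c + 2 + 2) / 4 = c + 1 := by omega
      rw [h1, h2]
      nlinarith
    · rw [if_neg h4]
      apply max_eq_left
      obtain ⟨c, rfl⟩ : ∃ c, b = 4 * c := ⟨b / 4, by omega⟩
      have h1 : (4 * c + 1) / 2 = 2 * c := by omega
      have h2 : (4 * c + 2) / 4 = c := by omega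
      rw [h1, h2]
      nlinarith
  · decide
  · decide

theorem one_le_κ {b : ℕ} (hb : 2 ≤ b) : 1 ≤ κ b := by
  unfold κ
  split_ifs with h
  · have h1 : 1 ≤ (b + 2) / 4 := by omega
    exact Nat.mul_pos (by omega) h1
  · have h1 : 1 ≤ (b + 1) / 2 := by omega
    exact Nat.pow_pos h1

theorem κ_le {b : ℕ} (hb : 2 ≤ b) : κ b ≤ b ^ 2 := by
  unfold κ
  split_ifs with h
  · have h1 : (b + 2) / 4 ≤ b := by omega
    rw [sq]
    exact Nat.mul_le_mul_left b h1
  · have h1 : (b + 1) / 2 ≤ b := by omega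
    exact Nat.pow_le_pow_left h1 2

/-- the largest size of a progression-free set decided by a `b`-additive function with at most `V`
values -/
noncomputable def g (b m V : ℕ) : ℕ :=
  sSup {n | ∃ A : Finset ℕ, DecU b m V A ∧ ThreeAPFree (A : Set ℕ) ∧ A.card = n}

theorem g_bdd (b m V : ℕ) :
    BddAbove {n | ∃ A : Finset ℕ, DecU b m V A ∧ ThreeAPFree (A : Set ℕ) ∧ A.card = n} := by
  refine ⟨b ^ m, ?_⟩
  rintro n ⟨A, hA, -, rfl⟩
  simpa using card_le_card hA.1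

theorem le_g {b m V : ℕ} {A : Finset ℕ} (hA : DecU b m V A) (hF : ThreeAPFree (A : Set ℕ)) :
    A.card ≤ g b m V := le_csSup (g_bdd b m V) ⟨A, hA, hF, rfl⟩

theorem g_le {b m V : ℕ} {M : ℝ} (hM0 : 0 ≤ M)
    (hM : ∀ A : Finset ℕ, DecU b m V A → ThreeAPFree (A : Set ℕ) → (A.card : ℝ) ≤ M) :
    (g b m V : ℝ) ≤ M := by
  rcases Set.eq_empty_or_nonempty
    {n | ∃ A : Finset ℕ, DecU b m V A ∧ ThreeAPFree (A : Set ℕ) ∧ A.card = n} with h | h
  · have h1 : g b m V = 0 := by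
      unfold g
      rw [h]
      simp
    rw [h1]
    simpa using hM0
  · obtain ⟨A, hA, hF, hc⟩ := Nat.sSup_mem h (g_bdd b m V)
    have h1 : A.card = g b m V := hc
    rw [← h1]
    exact hM A hA hF

theorem DecU.mono {b m V V' : ℕ} (h : V ≤ V') {A : Finset ℕ} (hA : DecU b m V A) :
    DecU b m V' A := by
  obtain ⟨h0, G, i, f, D, h1, h2⟩ := hA
  exact ⟨h0, G, i, f, D, h1.trans h, h2⟩

/-- polynomial factors -/
theorem poly_le (b : ℕ) {t : ℝ} (ht : 1 < t) :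
    ∀ᶠ m : ℕ in atTop, ((b * (m * b ^ 2 + 1) : ℕ) : ℝ) ≤ t ^ m := by
  have h1 : Tendsto (fun m : ℕ => (m : ℝ) ^ 1 / t ^ m) atTop (𝓝 0) :=
    tendsto_pow_const_div_const_pow_of_one_lt 1 ht
  have h2 : Tendsto (fun m : ℕ => (1 : ℝ) / t ^ m) atTop (𝓝 0) := by
    simpa using tendsto_pow_const_div_const_pow_of_one_lt 0 ht
  have h3 : Tendsto (fun m : ℕ => (b : ℝ) ^ 3 * ((m : ℝ) ^ 1 / t ^ m) + b * (1 / t ^ m)) atTop
      (𝓝 ((b : ℝ) ^ 3 * 0 + b * 0)) := (h1.const_mul _).add (h2.const_mul _)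
  simp only [mul_zero, add_zero] at h3
  filter_upwards [h3.eventually (gt_mem_nhds (show (0 : ℝ) < 1 by norm_num))] with m hm
  have ht0 : (0 : ℝ) < t ^ m := by positivity
  have h4 : ((b * (m * b ^ 2 + 1) : ℕ) : ℝ) / t ^ m ≤ 1 := by
    refine le_trans (le_of_eq ?_) hm.le
    push_cast
    field_simp
  rwa [div_le_one ht0] at h4

theorem tendsto_of {b : ℕ} (hb : 2 ≤ b) (h : K b = κ b) (V : ℕ → ℕ)
    (hlow : ∀ m, ∃ A : Finset ℕ, DecU b m (V m) A ∧ ThreeAPFree (A : Set ℕ) ∧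
      √(κ b : ℝ) ^ m ≤ ((b * (m * b ^ 2 + 1) : ℕ) : ℝ) * A.card)
    (hV : Tendsto (fun m : ℕ => Real.log (V m) * Real.log m / m) atTop (𝓝 0)) :
    Tendsto (fun m : ℕ => (g b m (V m) : ℝ) ^ (1 / (m : ℝ))) atTop (𝓝 √(κ b : ℝ)) := by
  obtain ⟨ρ, hρ⟩ : ∃ ρ : ℝ, ρ = √(κ b : ℝ) := ⟨_, rfl⟩
  have hρ1 : 1 ≤ ρ := by
    rw [hρ, Real.one_le_sqrt]
    exact_mod_cast one_le_κ hb
  rw [← hρ] at hlow ⊢
  rw [Metric.tendsto_nhds]
  intro ε hε
  simp only [Real.dist_eq]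
  -- the upper bound
  obtain ⟨δ, hδ, m₀, hup⟩ := upper hb (half_pos hε)
  rw [h, ← hρ] at hup
  -- the lower bound
  obtain ⟨η, hη0, hηε, hηρ⟩ : ∃ η : ℝ, 0 < η ∧ η < ε ∧ η < ρ :=
    ⟨min (ε / 2) (ρ / 2), lt_min (by positivity) (by positivity),
      (min_le_left _ _).trans_lt (by linarith), (min_le_right _ _).trans_lt (by linarith)⟩
  have ht : 1 < ρ / (ρ - η) := by
    rw [one_lt_div (by linarith)]
    linarith
  filter_upwards [poly_le b ht, hV.eventually (gt_mem_nhds hδ), eventually_ge_atTop m₀,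
    eventually_ge_atTop 2] with m h1 h2 h3 h4
  have hmR : (2 : ℝ) ≤ m := by exact_mod_cast h4
  have hm0 : (m : ℝ) ≠ 0 := by positivity
  have hlog : 0 < Real.log m := Real.log_pos (by linarith)
  have hVle : (V m : ℝ) ≤ Real.exp (δ * m / Real.log m) := by
    rcases Nat.eq_zero_or_pos (V m) with h0 | h0
    · rw [h0]
      simp only [Nat.cast_zero]
      positivity
    · rw [← Real.log_le_iff_le_exp (by exact_mod_cast h0), le_div_iff₀ hlog]
      rw [div_lt_iff₀ (by positivity)] at h2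
      linarith
  have hgu : (g b m (V m) : ℝ) ≤ (ρ + ε / 2) ^ m :=
    g_le (by positivity) fun A hA hF => hup m (V m) A h3 hA hF hVle
  have hgl : (ρ - η) ^ m ≤ (g b m (V m) : ℝ) := by
    obtain ⟨A, hA, hF, hc⟩ := hlow m
    have h5 : (A.card : ℝ) ≤ g b m (V m) := by exact_mod_cast le_g hA hF
    have h6 : ρ ^ m ≤ (ρ / (ρ - η)) ^ m * (g b m (V m) : ℝ) := by
      refine hc.trans ?_
      exact mul_le_mul h1 h5 (Nat.cast_nonneg _) (by
        have : 0 < ρ / (ρ - η) := by linarith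
        positivity)
    have h7 : 0 < ρ - η := by linarith
    rw [div_pow, div_mul_eq_mul_div, le_div_iff₀ (by positivity)] at h6
    exact le_of_mul_le_mul_left h6 (by positivity)
  have hroot : ∀ x : ℝ, 0 ≤ x → (x ^ m) ^ (1 / (m : ℝ)) = x := by
    intro x hx
    rw [one_div, ← Real.rpow_natCast, ← Real.rpow_mul hx, mul_inv_cancel₀ hm0, Real.rpow_one]
  have hu : (g b m (V m) : ℝ) ^ (1 / (m : ℝ)) ≤ ρ + ε / 2 := by
    rw [← hroot (ρ + ε / 2) (by positivity)]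
    exact Real.rpow_le_rpow (Nat.cast_nonneg _) hgu (by positivity)
  have hl : ρ - η ≤ (g b m (V m) : ℝ) ^ (1 / (m : ℝ)) := by
    rw [← hroot (ρ - η) (by linarith)]
    exact Real.rpow_le_rpow (by
      have h7 : 0 < ρ - η := by linarith
      positivity) hgl (by positivity)
  rw [abs_lt]
  constructor <;> linarith

end Pool.Agent.V5helper56.PH
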