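import Pool.Agent.V5helper56.SY.Pot

/-!
# Runs of carries

Let `D 0, …, D (L - 1)` be sets of digits in base `b` and let `f j` be functions on the digits for
which `∑ j, f j (x j) + f j (z j) - 2 f j (y j)` is positive for all nontrivial solutions of
`x + z = 2 y` with digits in the `D j`. The carries are *free* at `i` if there are solutions of
`x + z = 2 y + b ^ i` and of `x + z = 2 y - b ^ i` with `i` digits, the sum of whose costs is not
positive. We show that the carries are free at `i + 1` if `D i` has more than `(b + 1) / 2` elements,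
that `D i` has no two consecutive elements if the carries are free at `i`, and that `D i` is a
*reset set* if the carries are free at `i` and not free at `i + 1`.
-/

set_option autoImplicit false

namespace Pool.Agent.V5helper56.PH

open Finset
open Pool.Agent.V5helper56.SY (St mem_St tr mem_tr pairs consecutive)

variable {b : ℕ} {D : ℕ → Finset ℕ} {f : ℕ → ℕ → ℚ}

/-- There are words of length `i` with digits in the sets `D j` and with
`x + z - 2 y = e b ^ i` and of cost `c`. -/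
def Pt (b : ℕ) (D : ℕ → Finset ℕ) (f : ℕ → ℕ → ℚ) (i : ℕ) (e : ℤ) (c : ℚ) (n : Prop) : Prop :=
  ∃ x y z : ℕ → ℕ, (∀ j < i, x j ∈ D j ∧ y j ∈ D j ∧ z j ∈ D j) ∧
    ∑ j ∈ range i, ((x j : ℤ) + z j - 2 * y j) * b ^ j = e * b ^ i ∧
    ∑ j ∈ range i, (f j (x j) + f j (z j) - 2 * f j (y j)) = c ∧ (n → ∃ j < i, x j ≠ z j)

theorem Pt.zero : Pt b D f 0 0 0 False :=
  ⟨fun _ => 0, fun _ => 0, fun _ => 0, fun j hj => absurd hj (Nat.not_lt_zero j), by simp, by simp,
    fun h => h.elim⟩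

theorem Pt.step {i : ℕ} {e e' : ℤ} {c : ℚ} {n : Prop} (h : Pt b D f i e c n) {X Y Z : ℕ}
    (hX : X ∈ D i) (hY : Y ∈ D i) (hZ : Z ∈ D i) (he : (X : ℤ) + Z - 2 * Y + e = b * e') :
    Pt b D f (i + 1) e' (c + (f i X + f i Z - 2 * f i Y)) (n ∨ X ≠ Z) := by
  obtain ⟨x, y, z, h1, h2, h3, h4⟩ := h
  refine ⟨fun j => if j = i then X else x j, fun j => if j = i then Y else y j,
    fun j => if j = i then Z else z j, ?_, ?_, ?_, ?_⟩
  · intro j hj
    by_cases h : j = i
    · subst h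
      simp only [if_true]
      exact ⟨hX, hY, hZ⟩
    · simp only [if_neg h]
      exact h1 j (by omega)
  · rw [sum_range_succ]
    have h5 : ∑ j ∈ range i, (((if j = i then X else x j : ℕ) : ℤ) + ((if j = i then Z else z j : ℕ) : ℤ) -
        2 * ((if j = i then Y else y j : ℕ) : ℤ)) * b ^ j =
        ∑ j ∈ range i, ((x j : ℤ) + z j - 2 * y j) * b ^ j := by
      apply sum_congr rfl
      intro j hj
      have : j ≠ i := (mem_range.1 hj).ne
      simp only [if_neg this]
    rw [h5, h2]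
    simp only [if_true]
    rw [pow_succ]
    linear_combination (b : ℤ) ^ i * he
  · rw [sum_range_succ]
    have h5 : ∑ j ∈ range i, (f j (if j = i then X else x j) + f j (if j = i then Z else z j) -
        2 * f j (if j = i then Y else y j)) =
        ∑ j ∈ range i, (f j (x j) + f j (z j) - 2 * f j (y j)) := by
      apply sum_congr rfl
      intro j hj
      have : j ≠ i := (mem_range.1 hj).ne
      simp only [if_neg this]
    rw [h5, h3]
    simp only [if_true]
  · rintro (hn | hn)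
    · obtain ⟨j, hj, hne⟩ := h4 hn
      refine ⟨j, by omega, ?_⟩
      simp only [if_neg hj.ne]
      exact hne
    · exact ⟨i, by omega, by simpa using hn⟩

theorem Pt.mono {i : ℕ} {e : ℤ} {c : ℚ} {n n' : Prop} (h : Pt b D f i e c n) (hn : n' → n) :
    Pt b D f i e c n' := by
  obtain ⟨x, y, z, h1, h2, h3, h4⟩ := h
  exact ⟨x, y, z, h1, h2, h3, fun h => h4 (hn h)⟩

theorem Pt.extend {L : ℕ} (hne : ∀ j < L, (D j).Nonempty) {i : ℕ} {c : ℚ} {n : Prop}
    (h : Pt b D f i 0 c n) : ∀ {i' : ℕ}, i ≤ i' → i' ≤ L → Pt b D f i' 0 c n := by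
  intro i' hi
  induction i', hi using Nat.le_induction with
  | base => intro _; exact h
  | succ i' hi ih =>
    intro hL
    obtain ⟨X, hX⟩ := hne i' (by omega)
    have h1 := (ih (by omega)).step hX hX hX (e' := 0) (by ring)
    have h2 : c + (f i' X + f i' X - 2 * f i' X) = c := by ring
    rw [h2] at h1
    exact h1.mono Or.inl

/-- the carries are free at `i` -/
def Fr (b : ℕ) (D : ℕ → Finset ℕ) (f : ℕ → ℕ → ℚ) (i : ℕ) : Prop :=
  ∃ c₁ c₂ : ℚ, Pt b D f i 1 c₁ False ∧ Pt b D f i (-1) c₂ False ∧ c₁ + c₂ ≤ 0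

theorem not_fr_zero : ¬ Fr b D f 0 := by
  rintro ⟨c₁, c₂, ⟨x, y, z, -, h, -⟩, -⟩
  simp at h

/-- separation -/
theorem sep (P N : Finset ℚ) (h : ∀ p ∈ P, ∀ q ∈ N, 0 < p + q) :
    ∃ g : ℚ, (∀ p ∈ P, g < p) ∧ ∀ q ∈ N, -g < q := by
  rcases P.eq_empty_or_nonempty with rfl | hP
  · rcases N.eq_empty_or_nonempty with rfl | hN
    · exact ⟨0, by simp, by simp⟩
    · refine ⟨1 - N.min' hN, by simp, fun q hq => ?_⟩
      have := N.min'_le q hq
      linarith
  · rcases N.eq_empty_or_nonempty with rfl | hN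
    · refine ⟨P.min' hP - 1, fun p hp => ?_, by simp⟩
      have := P.min'_le p hp
      linarith
    · have h0 := h _ (P.min'_mem hP) _ (N.min'_mem hN)
      refine ⟨(P.min' hP - N.min' hN) / 2, fun p hp => ?_, fun q hq => ?_⟩
      · have := P.min'_le p hp
        linarith
      · have := N.min'_le q hq
        linarith

/-- `D` is a reset set in base `b`. -/
def Reset (b : ℕ) (D : Finset ℕ) (φ : ℕ → ℚ) (γ : ℚ) : Prop :=
  ∀ X ∈ D, ∀ Y ∈ D, ∀ Z ∈ D, ∀ e ∈ St, ∀ e' : ℤ, (X : ℤ) + Z - 2 * Y + e = b * e' →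
    ¬ (e = 0 ∧ X = Y ∧ Z = Y) → γ * e < φ X + φ Z - 2 * φ Y

section

variable {L : ℕ} (hne : ∀ j < L, (D j).Nonempty) (hD : ∀ j, D j ⊆ range b)
  (hpos : ∀ c, Pt b D f L 0 c True → 0 < c)

include hne hpos

theorem pos_le {i : ℕ} (hi : i ≤ L) {c : ℚ} (h : Pt b D f i 0 c True) : 0 < c :=
  hpos c (h.extend hne hi le_rfl)

/-- a consecutive pair is impossible if the carries are free -/
theorem no_consec {i : ℕ} (hi : i < L) (hF : Fr b D f i) {t : ℕ} (ht : t ∈ D i)
    (ht' : t + 1 ∈ D i) : False := by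
  obtain ⟨c₁, c₂, h1, h2, h3⟩ := hF
  have h4 := h1.step ht ht' ht' (e' := 0) (by push_cast; ring)
  have h5 := h2.step ht ht ht' (e' := 0) (by push_cast; ring)
  have h6 := pos_le hne hpos hi (h4.mono fun _ => Or.inr (by omega))
  have h7 := pos_le hne hpos hi (h5.mono fun _ => Or.inr (by omega))
  linarith

include hD

/-- large sets of digits make the carries free -/
theorem fr_succ {i : ℕ} (hi : i < L) (hc : b + 2 ≤ 2 * (D i).card) : Fr b D f (i + 1) := by
  classical
  obtain ⟨P, hP⟩ : ∃ P : Finset ℚ, P = ((D i ×ˢ D i ×ˢ D i).filter fun t =>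
    (t.1 : ℤ) + t.2.2 - 2 * t.2.1 = b).image fun t => f i t.1 + f i t.2.2 - 2 * f i t.2.1 :=
    ⟨_, rfl⟩
  obtain ⟨N, hN⟩ : ∃ N : Finset ℚ, N = ((D i ×ˢ D i ×ˢ D i).filter fun t =>
    (t.1 : ℤ) + t.2.2 - 2 * t.2.1 = -b).image fun t => f i t.1 + f i t.2.2 - 2 * f i t.2.1 :=
    ⟨_, rfl⟩
  have ht0 : Pt b D f i 0 0 False := Pt.zero.extend hne (Nat.zero_le _) hi.le
  by_contra hcon
  have hPN : ∀ p ∈ P, ∀ q ∈ N, 0 < p + q := by
    intro p hp q hq
    by_contra hle
    push Not at hle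
    rw [hP, mem_image] at hp
    rw [hN, mem_image] at hq
    obtain ⟨⟨X, Y, Z⟩, ht, rfl⟩ := hp
    obtain ⟨⟨X', Y', Z'⟩, ht', rfl⟩ := hq
    simp only [mem_filter, mem_product] at ht ht'
    obtain ⟨⟨hX, hY, hZ⟩, he⟩ := ht
    obtain ⟨⟨hX', hY', hZ'⟩, he'⟩ := ht'
    have h1 := ht0.step hX hY hZ (e' := 1) (by rw [add_zero, mul_one]; exact he)
    have h2 := ht0.step hX' hY' hZ' (e' := -1) (by rw [add_zero, he']; ring)
    refine hcon ⟨_, _, h1.mono fun h => h.elim, h2.mono fun h => h.elim, ?_⟩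
    linarith
  obtain ⟨g, hg1, hg2⟩ := sep P N hPN
  have hDne := hne i hi
  have hb : 0 < b := by
    obtain ⟨y, hy⟩ := hDne
    have := mem_range.1 (hD i hy)
    omega
  have hbQ : (0 : ℚ) < b := by exact_mod_cast hb
  obtain ⟨y, hy, hmax⟩ := exists_max_image (D i) (fun d => f i d - g / b * d) hDne
  obtain ⟨x, z, e, hzy, htr⟩ := pairs (hD i) hc hy (e := 0) (by simp [St])
  obtain ⟨⟨hx, -, hz⟩, ⟨-, he⟩, heq⟩ := mem_tr.1 htr
  have hmx := hmax x hx
  have hmz := hmax z hz
  have heqQ : (x : ℚ) + z - 2 * y = b * e := by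
    have h1 : ((x : ℤ) : ℚ) + (z : ℤ) - 2 * (y : ℤ) = (b : ℤ) * e := by
      have := congrArg (fun a : ℤ => (a : ℚ)) heq
      push_cast at this
      push_cast
      linarith
    push_cast at h1
    exact h1
  have hge : f i x + f i z - 2 * f i y ≤ g * e := by
    have h2 : g / b * ((x : ℚ) + z - 2 * y) = g * e := by
      rw [heqQ]
      field_simp
    have h3 : g / b * ((x : ℚ) + z - 2 * y) = g / b * x + g / b * z - 2 * (g / b * y) := by ring
    linarith
  rcases mem_St.1 he with rfl | rfl | rfl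
  · have h4 : f i x + f i z - 2 * f i y ∈ N := by
      rw [hN, mem_image]
      refine ⟨(x, y, z), ?_, rfl⟩
      simp only [mem_filter, mem_product]
      exact ⟨⟨hx, hy, hz⟩, by linarith⟩
    have h5 := hg2 _ h4
    push_cast at hge
    linarith
  · have h4 := pos_le hne hpos hi ((ht0.step hx hy hz (e' := 0) (by linarith)).mono
      (n' := True) fun _ => Or.inr (by omega))
    push_cast at hge
    linarith
  · have h4 : f i x + f i z - 2 * f i y ∈ P := by
      rw [hP, mem_image]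
      refine ⟨(x, y, z), ?_, rfl⟩
      simp only [mem_filter, mem_product]
      exact ⟨⟨hx, hy, hz⟩, by linarith⟩
    have h5 := hg1 _ h4
    push_cast at hge
    linarith

/-- reset sets -/
theorem reset_of {i : ℕ} (hi : i < L) (hF : Fr b D f i) (hF' : ¬ Fr b D f (i + 1)) :
    ∃ (φ : ℕ → ℚ) (γ : ℚ), Reset b (D i) φ γ := by
  classical
  obtain ⟨c₁, c₂, h1, h2, h3⟩ := hF
  have ht0 : Pt b D f i 0 0 False := Pt.zero.extend hne (Nat.zero_le _) hi.le
  obtain ⟨p, hp⟩ : ∃ p : ℤ → ℚ, p = fun e => if e = 1 then c₁ else if e = -1 then c₂ else 0 :=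
    ⟨_, rfl⟩
  have hp1 : p 1 = c₁ := by simp [hp]
  have hp2 : p (-1) = c₂ := by simp [hp]
  have hp0 : p 0 = 0 := by simp [hp]
  have hpt : ∀ e ∈ St, Pt b D f i e (p e) False := by
    intro e he
    rcases mem_St.1 he with rfl | rfl | rfl
    · rw [hp2]; exact h2
    · rw [hp0]; exact ht0
    · rw [hp1]; exact h1
  obtain ⟨P, hP⟩ : ∃ P : Finset ℚ, P = (((D i ×ˢ D i ×ˢ D i) ×ˢ St).filter fun t =>
    (t.1.1 : ℤ) + t.1.2.2 - 2 * t.1.2.1 + t.2 = b).image fun t =>
      p t.2 + (f i t.1.1 + f i t.1.2.2 - 2 * f i t.1.2.1) := ⟨_, rfl⟩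
  obtain ⟨N, hN⟩ : ∃ N : Finset ℚ, N = (((D i ×ˢ D i ×ˢ D i) ×ˢ St).filter fun t =>
    (t.1.1 : ℤ) + t.1.2.2 - 2 * t.1.2.1 + t.2 = -b).image fun t =>
      p t.2 + (f i t.1.1 + f i t.1.2.2 - 2 * f i t.1.2.1) := ⟨_, rfl⟩
  have hPN : ∀ p ∈ P, ∀ q ∈ N, 0 < p + q := by
    intro u hu q hq
    by_contra hle
    push Not at hle
    rw [hP, mem_image] at hu
    rw [hN, mem_image] at hq
    obtain ⟨⟨⟨X, Y, Z⟩, e⟩, ht, rfl⟩ := hu
    obtain ⟨⟨⟨X', Y', Z'⟩, e'⟩, ht', rfl⟩ := hq
    simp only [mem_filter, mem_product] at ht ht'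
    obtain ⟨⟨⟨hX, hY, hZ⟩, heS⟩, he⟩ := ht
    obtain ⟨⟨⟨hX', hY', hZ'⟩, heS'⟩, he'⟩ := ht'
    have h1 := (hpt e heS).step hX hY hZ (e' := 1) (by rw [mul_one]; exact he)
    have h2 := (hpt e' heS').step hX' hY' hZ' (e' := -1) (by rw [he']; ring)
    exact hF' ⟨_, _, h1.mono fun h => h.elim, h2.mono fun h => h.elim, hle⟩
  obtain ⟨g, hg1, hg2⟩ := sep P N hPN
  have hDne := hne i hi
  have hb : 0 < b := by
    obtain ⟨y, hy⟩ := hDne
    have := mem_range.1 (hD i hy)
    omega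
  have hbQ : (0 : ℚ) < b := by exact_mod_cast hb
  have hbZ : (0 : ℤ) < b := by exact_mod_cast hb
  refine ⟨fun d => f i d - g / b * d, g / b - c₁, ?_⟩
  intro X hX Y hY Z hZ e he e' heq hnt
  have hXb := mem_range.1 (hD i hX)
  have hYb := mem_range.1 (hD i hY)
  have hZb := mem_range.1 (hD i hZ)
  have heb : -1 ≤ e ∧ e ≤ 1 := by
    rcases mem_St.1 he with h | h | h <;> omega
  have he'S : e' ∈ St := by
    have h1 : (b : ℤ) * e' < b * 2 := by rw [← heq]; omega
    have h2 : (b : ℤ) * (-2) < b * e' := by rw [← heq]; omega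
    have h3 := lt_of_mul_lt_mul_left h1 hbZ.le
    have h4 := lt_of_mul_lt_mul_left h2 hbZ.le
    rw [mem_St]
    omega
  have heqQ : (X : ℚ) + Z - 2 * Y = b * e' - e := by
    have h1 : ((X : ℤ) : ℚ) + (Z : ℤ) - 2 * (Y : ℤ) + (e : ℚ) = (b : ℤ) * e' := by
      have := congrArg (fun a : ℤ => (a : ℚ)) heq
      push_cast at this
      push_cast
      linarith
    push_cast at h1
    linarith
  -- the cost
  have hcost : g * e' < p e + (f i X + f i Z - 2 * f i Y) := by
    rcases mem_St.1 he'S with rfl | rfl | rfl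
    · have h4 : p e + (f i X + f i Z - 2 * f i Y) ∈ N := by
        rw [hN, mem_image]
        refine ⟨((X, Y, Z), e), ?_, rfl⟩
        simp only [mem_filter, mem_product]
        exact ⟨⟨⟨hX, hY, hZ⟩, he⟩, by linarith⟩
      have h5 := hg2 _ h4
      push_cast
      linarith
    · have h4 := pos_le hne hpos hi (((hpt e he).step hX hY hZ (e' := 0) heq).mono
        (n' := True) fun _ => Or.inr (by
          intro hXZ
          apply hnt
          rw [mul_zero] at heq
          refine ⟨by omega, by omega, by omega⟩))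
      push_cast
      linarith
    · have h4 : p e + (f i X + f i Z - 2 * f i Y) ∈ P := by
        rw [hP, mem_image]
        refine ⟨((X, Y, Z), e), ?_, rfl⟩
        simp only [mem_filter, mem_product]
        exact ⟨⟨⟨hX, hY, hZ⟩, he⟩, by linarith⟩
      have h5 := hg1 _ h4
      push_cast
      linarith
  have hpe : p e ≤ c₁ * e := by
    rcases mem_St.1 he with rfl | rfl | rfl
    · rw [hp2]
      push_cast
      linarith
    · rw [hp0]
      push_cast
      linarith
    · rw [hp1]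
      push_cast
      linarith
  have h6 : g / b * ((X : ℚ) + Z - 2 * Y) = g * e' - g / b * e := by
    rw [heqQ]
    field_simp
  have h7 : g / b * ((X : ℚ) + Z - 2 * Y) = g / b * X + g / b * Z - 2 * (g / b * Y) := by ring
  simp only
  linarith

end

end Pool.Agent.V5helper56.PH
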