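import Pool.Agent.V5helper56.PH.Words

/-!
# The upper bound
-/

set_option autoImplicit false

namespace Pool.Agent.V5helper56.PH

open Finset Filter Topology

/-- `A` is decided by a `b`-additive function with at most `V` values on `[0, b ^ m)`. -/
def DecU (b m V : ℕ) (A : Finset ℕ) : Prop :=
  A ⊆ range (b ^ m) ∧ ∃ (G : Type) (_ : AddCommGroup G) (f : ℕ → ℕ → G) (D : Set G),
    ((fun a => ∑ i ∈ range m, f i (a / b ^ i % b)) '' Set.Iio (b ^ m)).ncard ≤ V ∧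
    ∀ a < b ^ m, a ∈ A ↔ ∑ i ∈ range m, f i (a / b ^ i % b) ∈ D

theorem card_le {L b m V : ℕ} (hL : 0 < L) (hb : 2 ≤ b) {A : Finset ℕ} (hA : DecU b m V A)
    (hF : ThreeAPFree (A : Set ℕ)) {M : ℝ} (hM0 : 0 ≤ M)
    (hM : ∀ A' : Finset (Fin (m / L) → X L b), Pool.Agent.TH197.Sym.Free (F (L := L) (b := b)) nt A' →
      Dec (π (L := L) (b := b)) V A' → (A'.card : ℝ) ≤ M) : (A.card : ℝ) ≤ b ^ L * M := by
  obtain ⟨hsub, G, iG, f, D, hV, hD⟩ := hA
  have hb0 : 0 < b := by omega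
  obtain ⟨n, r, hn, hr, hrL, hm⟩ : ∃ n r, n = m / L ∧ r = m % L ∧ r < L ∧ m = L * n + r :=
    ⟨m / L, m % L, rfl, rfl, Nat.mod_lt _ hL, (Nat.div_add_mod m L).symm⟩
  have hbr : b ^ r ≤ b ^ L := Nat.pow_le_pow_right hb0 hrL.le
  rw [← hn] at hM
  clear hn hr
  subst hm
  have h1 := card_split (L := L) hb0 (A := A) (n := n) (r := r) hsub (M := M) (fun u hu =>
    hM _ (free_words hb0 hF) (dec_words hb0 f D hV hD hu))
  refine h1.trans ?_
  apply mul_le_mul_of_nonneg_right _ hM0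
  exact_mod_cast hbr

/-- **The upper bound.** -/
theorem upper {b : ℕ} (hb : 2 ≤ b) {ε : ℝ} (hε : 0 < ε) : ∃ δ : ℝ, 0 < δ ∧ ∃ m₀ : ℕ,
    ∀ (m V : ℕ) (A : Finset ℕ), m₀ ≤ m → DecU b m V A → ThreeAPFree (A : Set ℕ) →
      (V : ℝ) ≤ Real.exp (δ * m / Real.log m) → (A.card : ℝ) ≤ (√(K b : ℝ) + ε) ^ m := by
  obtain ⟨ρ, hρ⟩ : ∃ ρ : ℝ, ρ = √(K b : ℝ) := ⟨_, rfl⟩
  rw [← hρ]
  have hK1 : (1 : ℝ) ≤ K b := by exact_mod_cast one_le_K hb
  have hρ1 : 1 ≤ ρ := by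
    rw [hρ, Real.one_le_sqrt]
    exact hK1
  have hρsq : ρ ^ 2 = K b := by
    rw [hρ]
    exact Real.sq_sqrt (by linarith)
  have hbR : (2 : ℝ) ≤ b := by exact_mod_cast hb
  -- the length of the blocks
  have hratio : 1 < (ρ + ε / 2) / ρ := by
    rw [one_lt_div (by positivity)]
    linarith
  obtain ⟨L, hL1, hL⟩ : ∃ L : ℕ, 1 ≤ L ∧ (b : ℝ) * ρ ^ L < (ρ + ε / 2) ^ L := by
    obtain ⟨L, hL⟩ := (((tendsto_pow_atTop_atTop_of_one_lt hratio).eventually_gt_atTop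
      (b : ℝ)).and (eventually_ge_atTop 1)).exists
    refine ⟨L, hL.2, ?_⟩
    have h1 := hL.1
    rwa [div_pow, lt_div_iff₀ (by positivity)] at h1
  haveI : NeZero L := ⟨by omega⟩
  obtain ⟨h, hh⟩ : ∃ h : ℕ, h = Nat.sqrt (b ^ 2 * K b ^ L) := ⟨_, rfl⟩
  have hhR : (h : ℝ) ≤ b * ρ ^ L := by
    apply le_of_sq_le_sq _ (by positivity)
    have h1 : h * h ≤ b ^ 2 * K b ^ L := by
      rw [hh]
      exact Nat.sqrt_le _
    have h2 : (h : ℝ) * h ≤ b ^ 2 * (K b : ℝ) ^ L := by exact_mod_cast h1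
    calc (h : ℝ) ^ 2 = h * h := by ring
      _ ≤ b ^ 2 * (K b : ℝ) ^ L := h2
      _ = (b * ρ ^ L) ^ 2 := by rw [← hρsq]; ring
  obtain ⟨ε', hε'⟩ : ∃ ε' : ℝ, ε' = (ρ + ε / 2) ^ L - b * ρ ^ L := ⟨_, rfl⟩
  have hε'0 : 0 < ε' := by
    rw [hε']
    linarith
  obtain ⟨δ, hδ, n₀, hmain⟩ := expo (π (L := L) (b := b)) (F := F) (nt := nt) τ F_τ h
    (fun S hS => hh ▸ max_bound hb S hS) hε'0
  -- the factor `b ^ L`
  have hratio' : 1 < (ρ + ε) / (ρ + ε / 2) := by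
    rw [one_lt_div (by positivity)]
    linarith
  obtain ⟨m₁, hm₁⟩ := (tendsto_pow_atTop_atTop_of_one_lt hratio').eventually_ge_atTop
    ((b : ℝ) ^ L) |>.exists_forall_of_atTop
  have hLR : (1 : ℝ) ≤ L := by exact_mod_cast hL1
  refine ⟨δ / (2 * L), by positivity, max m₁ (max (L * (n₀ + 2)) 2), ?_⟩
  intro m V A hm hA hF hV
  have hmm1 : m₁ ≤ m := (le_max_left _ _).trans hm
  have hmn0 : L * (n₀ + 2) ≤ m := ((le_max_left _ _).trans (le_max_right _ _)).trans hm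
  have hn : n₀ + 2 ≤ m / L := by
    rw [Nat.le_div_iff_mul_le hL1, mul_comm]
    exact hmn0
  have hnR : (2 : ℝ) ≤ ((m / L : ℕ) : ℝ) := by
    have : 2 ≤ m / L := by omega
    exact_mod_cast this
  have h2n : (m : ℝ) ≤ 2 * L * ((m / L : ℕ) : ℝ) := by
    have h1 : m ≤ 2 * L * (m / L) := by
      have h2 := Nat.div_add_mod m L
      have h3 := Nat.mod_lt m (show 0 < L by omega)
      have h4 : L * 1 ≤ L * (m / L) := Nat.mul_le_mul_left _ (by omega)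
      have h5 : 2 * L * (m / L) = 2 * (L * (m / L)) := by ring
      omega
    exact_mod_cast h1
  have hnm : ((m / L : ℕ) : ℝ) ≤ m := by exact_mod_cast Nat.div_le_self m L
  have hV' : (V : ℝ) ≤ Real.exp (δ * ((m / L : ℕ) : ℝ) / Real.log ((m / L : ℕ) : ℝ)) := by
    refine hV.trans (Real.exp_le_exp.2 ?_)
    have hl0 : 0 < Real.log ((m / L : ℕ) : ℝ) := Real.log_pos (by linarith)
    have hl1 : Real.log ((m / L : ℕ) : ℝ) ≤ Real.log m := Real.log_le_log (by linarith) hnm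
    calc δ / (2 * L) * m / Real.log m ≤ δ * ((m / L : ℕ) : ℝ) / Real.log m := by
          apply div_le_div_of_nonneg_right _ (by linarith)
          rw [div_mul_eq_mul_div, div_le_iff₀ (by positivity)]
          calc δ * m ≤ δ * (2 * L * ((m / L : ℕ) : ℝ)) := mul_le_mul_of_nonneg_left h2n hδ.le
            _ = δ * ((m / L : ℕ) : ℝ) * (2 * L) := by ring
      _ ≤ _ := by
          apply div_le_div_of_nonneg_left (by positivity) hl0 hl1
  have hb1 : (A.card : ℝ) ≤ b ^ L * ((h : ℝ) + ε') ^ (m / L) :=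
    card_le (by omega) hb hA hF (by positivity) fun A' hA' hD' =>
      hmain (m / L) V A' (by omega) hA' hD' hV'
  refine hb1.trans ?_
  have hbase : (h : ℝ) + ε' ≤ (ρ + ε / 2) ^ L := by
    rw [hε']
    linarith
  calc (b : ℝ) ^ L * ((h : ℝ) + ε') ^ (m / L)
      ≤ ((ρ + ε) / (ρ + ε / 2)) ^ m * ((ρ + ε / 2) ^ L) ^ (m / L) := by
        apply mul_le_mul (hm₁ m hmm1) _ (by positivity) (by positivity)
        exact pow_le_pow_left₀ (by positivity) hbase _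
    _ ≤ ((ρ + ε) / (ρ + ε / 2)) ^ m * (ρ + ε / 2) ^ m := by
        apply mul_le_mul_of_nonneg_left _ (by positivity)
        rw [← pow_mul]
        apply pow_le_pow_right₀ (by linarith)
        exact Nat.mul_div_le m L
    _ = (ρ + ε) ^ m := by
        rw [← mul_pow, div_mul_cancel₀]
        positivity

end Pool.Agent.V5helper56.PH
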