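import Pool.Agent.V5helper56.PH.Max

/-!
# From numbers to words over blocks of digits
-/

set_option autoImplicit false

namespace Pool.Agent.V5helper56.PH

open Finset
open Pool.Agent.TH197.Sym (Free)

theorem sum_range_mul {G : Type*} [AddCommMonoid G] (g : ℕ → G) (L : ℕ) : ∀ n : ℕ,
    ∑ i ∈ range (L * n), g i = ∑ c ∈ range n, ∑ j ∈ range L, g (L * c + j)
  | 0 => by simp
  | n + 1 => by
      rw [Nat.mul_succ, sum_range_add, sum_range_mul g L n, sum_range_succ]

theorem recon (B a : ℕ) : ∀ n : ℕ, a = ∑ c ∈ range n, a / B ^ c % B * B ^ c + B ^ n * (a / B ^ n)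
  | 0 => by simp
  | n + 1 => by
      rw [sum_range_succ]
      have h1 := recon B a n
      have h2 : a / B ^ (n + 1) = a / B ^ n / B := by rw [pow_succ, Nat.div_div_eq_div_mul]
      have h3 : a / B ^ n = a / B ^ n % B + B * (a / B ^ n / B) := (Nat.mod_add_div _ _).symm
      rw [h2]
      calc a = ∑ c ∈ range n, a / B ^ c % B * B ^ c + B ^ n * (a / B ^ n) := h1
        _ = ∑ c ∈ range n, a / B ^ c % B * B ^ c +
            B ^ n * (a / B ^ n % B + B * (a / B ^ n / B)) := by rw [← h3]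
        _ = _ := by rw [pow_succ]; ring

variable {L b : ℕ}

/-- the word of blocks of digits of `a` -/
def wd (hb : 0 < b) (L n a : ℕ) : Fin n → X L b := fun c j =>
  ⟨a / b ^ (L * (c : ℕ) + (j : ℕ)) % b, Nat.mod_lt _ hb⟩

theorem val_wd (hb : 0 < b) (n a : ℕ) (c : Fin n) :
    val (wd hb L n a c) = a / (b ^ L) ^ (c : ℕ) % b ^ L := by
  simp only [val, wd]
  have h1 := recon b (a / (b ^ L) ^ (c : ℕ) % b ^ L) L
  rw [Nat.div_eq_of_lt (Nat.mod_lt _ (by positivity)), mul_zero, add_zero] at h1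
  rw [h1, Finset.sum_range]
  apply sum_congr rfl
  intro j _
  congr 1
  have h2 : b ^ L = b ^ (j : ℕ) * b ^ (L - (j : ℕ)) := by
    rw [← pow_add]
    congr 1
    have := j.2
    omega
  rw [pow_add, pow_mul, ← Nat.div_div_eq_div_mul]
  generalize a / (b ^ L) ^ (c : ℕ) = u
  rw [h2, Nat.mod_mul_right_div_self, Nat.mod_mod_of_dvd]
  apply dvd_pow_self
  have := j.2
  omega

theorem recon_wd (hb : 0 < b) (n a : ℕ) :
    a = ∑ c : Fin n, val (wd hb L n a c) * (b ^ L) ^ (c : ℕ) + (b ^ L) ^ n * (a / (b ^ L) ^ n) := by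
  have h1 := recon (b ^ L) a n
  rw [Finset.sum_range (fun c => a / (b ^ L) ^ c % b ^ L * (b ^ L) ^ c)] at h1
  rw [sum_congr rfl fun c _ => by rw [val_wd hb n a c]]
  exact h1

theorem wd_inj (hb : 0 < b) {n a a' : ℕ} (h : wd hb L n a = wd hb L n a')
    (h' : a / (b ^ L) ^ n = a' / (b ^ L) ^ n) : a = a' := by
  rw [recon_wd (L := L) hb n a, recon_wd (L := L) hb n a', h, h']

theorem wd_surj (hb : 0 < b) (n u : ℕ) (x : Fin n → X L b) : ∃ a : ℕ,
    a / (b ^ L) ^ n = u ∧ wd hb L n a = x := by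
  classical
  have hB : 0 < (b ^ L) ^ n := by positivity
  have hdiv : ∀ a : Fin ((b ^ L) ^ n), ((a : ℕ) + (b ^ L) ^ n * u) / (b ^ L) ^ n = u := by
    intro a
    rw [Nat.add_mul_div_left _ _ hB, Nat.div_eq_of_lt a.2, zero_add]
  let e : Fin ((b ^ L) ^ n) → (Fin n → X L b) := fun a => wd hb L n ((a : ℕ) + (b ^ L) ^ n * u)
  have hinj : Function.Injective e := by
    intro a a' h
    have h1 := wd_inj hb h (by rw [hdiv, hdiv])
    exact Fin.ext (by omega)
  have hbij : Function.Bijective e := by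
    rw [Fintype.bijective_iff_injective_and_card]
    refine ⟨hinj, ?_⟩
    simp only [Fintype.card_fin, Fintype.card_pi, prod_const, card_univ]
  obtain ⟨a, ha⟩ := hbij.2 x
  exact ⟨_, hdiv a, ha⟩

/-- the statistic -/
theorem stat_split (hb : 0 < b) {G : Type*} [AddCommMonoid G] (f : ℕ → ℕ → G)
    (n r a : ℕ) :
    ∑ i ∈ range (L * n + r), f i (a / b ^ i % b) =
      ∑ c : Fin n, ∑ j : Fin L, f (L * c + j) ((wd hb L n a c j : Fin b) : ℕ) +
      ∑ j ∈ range r, f (L * n + j) (a / (b ^ L) ^ n / b ^ j % b) := by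
  rw [sum_range_add, sum_range_mul (fun i => f i (a / b ^ i % b)) L n,
    Finset.sum_range (fun c => ∑ j ∈ range L, f (L * c + j) (a / b ^ (L * c + j) % b))]
  congr 1
  · apply sum_congr rfl
    intro c _
    rw [Finset.sum_range]
    rfl
  · apply sum_congr rfl
    intro j _
    rw [Nat.div_div_eq_div_mul, ← pow_mul, pow_add]

variable (hb : 0 < b) (L) (A : Finset ℕ) (n u : ℕ)

/-- the words of the elements of `A` with top part `u` -/
def words : Finset (Fin n → X L b) := (A.filter fun a => a / (b ^ L) ^ n = u).image (wd hb L n)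

variable {L A n u}

theorem card_words : (words L hb A n u).card = (A.filter fun a => a / (b ^ L) ^ n = u).card := by
  unfold words
  apply card_image_of_injOn
  intro a ha a' ha' h
  exact wd_inj hb h (by rw [(mem_filter.1 ha).2, (mem_filter.1 ha').2])

theorem free_words (hA : ThreeAPFree (A : Set ℕ)) :
    Free (F (L := L) (b := b)) nt (words L hb A n u) := by
  intro q hq c
  have h0 := hq 0
  have h1 := hq 1
  have h2 := hq 2
  unfold words at h0 h1 h2
  rw [mem_image] at h0 h1 h2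
  obtain ⟨a0, ha0, hw0⟩ := h0
  obtain ⟨a1, ha1, hw1⟩ := h1
  obtain ⟨a2, ha2, hw2⟩ := h2
  obtain ⟨hA0, hu0⟩ := mem_filter.1 ha0
  obtain ⟨hA1, hu1⟩ := mem_filter.1 ha1
  obtain ⟨hA2, hu2⟩ := mem_filter.1 ha2
  have r0 := recon_wd (L := L) hb n a0
  have r1 := recon_wd (L := L) hb n a1
  have r2 := recon_wd (L := L) hb n a2
  rw [hw0, hu0] at r0
  rw [hw1, hu1] at r1
  rw [hw2, hu2] at r2
  have hsum : a0 + a2 = a1 + a1 := by
    have h3 : ∑ c : Fin n, val (F 0 (q c)) * (b ^ L) ^ (c : ℕ) +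
        ∑ c : Fin n, val (F 2 (q c)) * (b ^ L) ^ (c : ℕ) =
        2 * ∑ c : Fin n, val (F 1 (q c)) * (b ^ L) ^ (c : ℕ) := by
      rw [← sum_add_distrib, mul_sum]
      apply sum_congr rfl
      intro c _
      have h4 := (q c).2
      simp only [F0, F1, F2]
      rw [← add_mul, h4]
      ring
    rw [r0, r1, r2]
    simp only
    omega
  have h5 : a0 = a1 := hA (mem_coe.2 hA0) (mem_coe.2 hA1) (mem_coe.2 hA2) hsum
  have h6 : a0 = a2 := by omega
  intro hnt
  apply hnt
  have h7 : (fun c => F 0 (q c)) = fun c => F 2 (q c) := by rw [← hw0, ← hw2, h6]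
  exact congrFun h7 c

/-- being decided by a digit statistic with at most `V` values -/
theorem dec_words {r V : ℕ} {G : Type} [AddCommGroup G] (f : ℕ → ℕ → G) (D : Set G)
    (hV : ((fun a => ∑ i ∈ range (L * n + r), f i (a / b ^ i % b)) ''
      Set.Iio (b ^ (L * n + r))).ncard ≤ V)
    (hD : ∀ a < b ^ (L * n + r), a ∈ A ↔ ∑ i ∈ range (L * n + r), f i (a / b ^ i % b) ∈ D)
    (hu : u < b ^ r) : Dec (π (L := L) (b := b)) V (words L hb A n u) := by
  classical
  obtain ⟨K, hK⟩ : ∃ K, K = ∑ j ∈ range r, f (L * n + j) (u / b ^ j % b) := ⟨_, rfl⟩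
  have hst : ∀ a, a / (b ^ L) ^ n = u → ∑ i ∈ range (L * n + r), f i (a / b ^ i % b) =
      ∑ c : Fin n, ∑ j : Fin L, f (L * c + j) ((wd hb L n a c j : Fin b) : ℕ) + K := by
    intro a ha
    rw [stat_split hb f n r a, ha, hK]
  have hlt : ∀ a, a / (b ^ L) ^ n = u → a < b ^ (L * n + r) := by
    intro a ha
    have hB : 0 < (b ^ L) ^ n := by positivity
    have h1 : a / (b ^ L) ^ n < b ^ r := by rw [ha]; exact hu
    rw [Nat.div_lt_iff_lt_mul hB] at h1
    rw [pow_add, mul_comm, pow_mul]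
    exact h1
  refine ⟨G, inferInstance, fun c x => ∑ j : Fin L, f (L * c + j) (x j : ℕ),
    {g | g + K ∈ D}, ?_, ?_, ?_⟩
  · intro c
    exact ⟨fun j y => f (L * c + j) (y : ℕ), fun x => rfl⟩
  · refine le_trans ?_ hV
    have h1 : (Set.range fun x : Fin n → X L b =>
        ∑ c : Fin n, ∑ j : Fin L, f (L * c + j) ((x c j : Fin b) : ℕ)) ⊆
        (fun g => g - K) '' ((fun a => ∑ i ∈ range (L * n + r), f i (a / b ^ i % b)) ''
          Set.Iio (b ^ (L * n + r))) := by
      rintro _ ⟨x, rfl⟩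
      obtain ⟨a, ha, rfl⟩ := wd_surj hb n u x
      refine ⟨_, ⟨a, hlt a ha, rfl⟩, ?_⟩
      simp only
      rw [hst a ha, add_sub_cancel_right]
    have hfin : ((fun a => ∑ i ∈ range (L * n + r), f i (a / b ^ i % b)) ''
          Set.Iio (b ^ (L * n + r))).Finite := (Set.finite_Iio _).image _
    exact (Set.ncard_le_ncard h1 (hfin.image _)).trans (Set.ncard_image_le hfin)
  · intro x
    obtain ⟨a, ha, rfl⟩ := wd_surj hb n u x
    rw [Set.mem_setOf_eq, ← hst a ha, ← hD a (hlt a ha)]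
    unfold words
    rw [mem_image]
    constructor
    · rintro ⟨a', ha', hw⟩
      obtain ⟨h1, h2⟩ := mem_filter.1 ha'
      rwa [← wd_inj hb hw (by rw [h2, ha])]
    · intro h
      exact ⟨a, mem_filter.2 ⟨h, ha⟩, rfl⟩

/-- the number of elements -/
theorem card_split {r : ℕ} (hA : A ⊆ range (b ^ (L * n + r))) {M : ℝ}
    (hM : ∀ u < b ^ r, ((words L hb A n u).card : ℝ) ≤ M) : (A.card : ℝ) ≤ (b ^ r : ℕ) * M := by
  classical
  have hB : 0 < (b ^ L) ^ n := by positivity
  have h1 : A.card = ∑ u ∈ range (b ^ r), (A.filter fun a => a / (b ^ L) ^ n = u).card :=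
    card_eq_sum_card_fiberwise fun a ha => by
      have h2 := mem_range.1 (hA ha)
      simp only [coe_range, Set.mem_Iio]
      rw [Nat.div_lt_iff_lt_mul hB]
      rw [pow_add, mul_comm, pow_mul] at h2
      exact h2
  rw [h1]
  push_cast
  calc ∑ u ∈ range (b ^ r), ((A.filter fun a => a / (b ^ L) ^ n = u).card : ℝ)
      ≤ ∑ _u ∈ range (b ^ r), M := by
        apply sum_le_sum
        intro u hu
        rw [← card_words hb]
        exact hM u (mem_range.1 hu)
    _ = (b : ℝ) ^ r * M := by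
        rw [sum_const, card_range, nsmul_eq_mul]
        push_cast
        ring

end Pool.Agent.V5helper56.PH
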